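import Mathlib

/-!
Fourier series on the torus.
-/

set_option autoImplicit false

open MeasureTheory Finset
open scoped ENNReal ComplexConjugate

namespace Pool.Agent.Q263.WJ

/-- the measure on the circle -/
noncomputable local instance : MeasureSpace UnitAddCircle := ⟨AddCircle.haarAddCircle⟩

local instance : Measure.IsAddHaarMeasure (volume : Measure UnitAddCircle) :=
  inferInstanceAs (Measure.IsAddHaarMeasure AddCircle.haarAddCircle)

local instance : IsProbabilityMeasure (volume : Measure UnitAddCircle) :=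
  inferInstanceAs (IsProbabilityMeasure AddCircle.haarAddCircle)

open UnitAddTorus

variable {d : Type} [Fintype d]

lemma summable_C {ι : Type} (k : ι → d → ℤ) (c : ι → ℂ) (hc : Summable fun i => ‖c i‖) :
    Summable (fun i => c i • (mFourier (k i) : C(UnitAddTorus d, ℂ))) := by
  apply Summable.of_norm
  simpa only [norm_smul, mFourier_norm, mul_one] using hc

/-- the sum as a continuous function -/
lemma eq_C {ι : Type} (k : ι → d → ℤ) (c : ι → ℂ) (hc : Summable fun i => ‖c i‖)
    (G : UnitAddTorus d → ℂ) (hG : ∀ y, HasSum (fun i => c i * mFourier (k i) y) (G y)) :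
    ∃ g : C(UnitAddTorus d, ℂ), (∀ y, g y = G y) ∧
      HasSum (fun i => c i • (mFourier (k i) : C(UnitAddTorus d, ℂ))) g := by
  obtain ⟨g, hg⟩ := summable_C k c hc
  refine ⟨g, fun y => ?_, hg⟩
  have h1 := (ContinuousMap.evalCLM ℂ y).hasSum hg
  simp only [map_smul] at h1
  exact h1.unique (hG y)

/-- coefficients -/
lemma inner_eq {ι : Type} (k : ι → d → ℤ) (c : ι → ℂ) (g : C(UnitAddTorus d, ℂ))
    (hg : HasSum (fun i => c i • (mFourier (k i) : C(UnitAddTorus d, ℂ))) g) (m : d → ℤ) :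
    HasSum (fun i => if k i = m then c i else 0)
      (inner ℂ (mFourierLp (d := d) 2 m) (ContinuousMap.toLp (E := ℂ) 2 volume ℂ g)) := by
  have h1 := (ContinuousMap.toLp (E := ℂ) 2 (volume : Measure (UnitAddTorus d)) ℂ).hasSum hg
  simp only [map_smul] at h1
  have h2 := (innerSL ℂ (mFourierLp (d := d) 2 m)).hasSum h1
  simp only [map_smul, innerSL_apply_apply] at h2
  refine h2.congr_fun fun i => ?_
  have h3 := (orthonormal_iff_ite.1 (orthonormal_mFourier (d := d))) m (k i)
  rw [h3, smul_eq_mul]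
  by_cases h : k i = m
  · rw [if_pos h, if_pos h.symm, mul_one]
  · rw [if_neg h, if_neg (fun h' => h h'.symm), mul_zero]


/-- the coefficients are determined by the function -/
lemma coeff_unique {ι ι' : Type} (k : ι → d → ℤ) (c : ι → ℂ) (hc : Summable fun i => ‖c i‖)
    (k' : ι' → d → ℤ) (c' : ι' → ℂ) (hc' : Summable fun i => ‖c' i‖) (G : UnitAddTorus d → ℂ)
    (hG : ∀ y, HasSum (fun i => c i * mFourier (k i) y) (G y))
    (hG' : ∀ y, HasSum (fun i => c' i * mFourier (k' i) y) (G y)) (m : d → ℤ) :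
    ∑' i, (if k i = m then c i else 0) = ∑' i, (if k' i = m then c' i else 0) := by
  obtain ⟨g, hg1, hg2⟩ := eq_C k c hc G hG
  obtain ⟨g', hg1', hg2'⟩ := eq_C k' c' hc' G hG'
  have h : g = g' := by
    ext y
    rw [hg1, hg1']
  subst h
  rw [(inner_eq k c g hg2 m).tsum_eq, (inner_eq k' c' g hg2' m).tsum_eq]

/-- Bessel's inequality -/
lemma bessel (a : (d → ℤ) → ℂ) (ha : Summable fun i => ‖a i‖) (G : UnitAddTorus d → ℂ)
    (hG : ∀ y, HasSum (fun i => a i * mFourier i y) (G y)) (s : Finset (d → ℤ)) :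
    ∑ m ∈ s, ‖a m‖ ^ 2 ≤ ∫ y, ‖G y‖ ^ 2 := by
  classical
  obtain ⟨g, hg1, hg2⟩ := eq_C (fun i => i) a ha G hG
  have h1 := (orthonormal_mFourier (d := d)).sum_inner_products_le
    (ContinuousMap.toLp (E := ℂ) 2 (volume : Measure (UnitAddTorus d)) ℂ g) (s := s)
  have h2 : ∀ m, inner ℂ (mFourierLp (d := d) 2 m)
      (ContinuousMap.toLp (E := ℂ) 2 (volume : Measure (UnitAddTorus d)) ℂ g) = a m := by
    intro m
    have h3 := inner_eq (fun i => i) a g hg2 m
    rw [← h3.tsum_eq, tsum_eq_single m]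
    · rw [if_pos rfl]
    · intro i hi
      rw [if_neg hi]
  simp only [h2] at h1
  refine h1.trans (le_of_eq ?_)
  rw [← inner_self_eq_norm_sq (𝕜 := ℂ), ContinuousMap.inner_toLp]
  have h4 : ∀ y, (g y) * (starRingEnd ℂ) (g y) = ((‖G y‖ ^ 2 : ℝ) : ℂ) := by
    intro y
    rw [hg1, Complex.mul_conj, Complex.normSq_eq_norm_sq]
  simp only [h4]
  rw [show (∫ x, ((‖G x‖ ^ 2 : ℝ) : ℂ)) = ((∫ x, ‖G x‖ ^ 2 : ℝ) : ℂ) from integral_ofReal]
  exact Complex.ofReal_re _


/-- representatives in `(0, 1]` -/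
noncomputable def rep (y : UnitAddTorus d) (i : d) : ℝ := (AddCircle.equivIoc 1 0 (y i) : ℝ)

omit [Fintype d] in
lemma rep_coe (y : UnitAddTorus d) (i : d) : ((rep y i : ℝ) : UnitAddCircle) = y i :=
  AddCircle.coe_equivIoc

omit [Fintype d] in
lemma rep_mem (y : UnitAddTorus d) (i : d) : 0 < rep y i ∧ rep y i ≤ 1 := by
  have h := (AddCircle.equivIoc (1 : ℝ) 0 (y i)).2
  rw [Set.mem_Ioc] at h
  exact ⟨h.1, h.2.trans (le_of_eq (zero_add _))⟩

omit [Fintype d] in
lemma measurable_rep : Measurable (rep : UnitAddTorus d → d → ℝ) := by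
  apply measurable_pi_lambda
  intro i
  have h1 : Measurable (fun y : UnitAddCircle => ((AddCircle.measurableEquivIoc 1 0 y : _) : ℝ)) :=
    measurable_subtype_coe.comp (AddCircle.measurableEquivIoc 1 0).measurable
  exact h1.comp (measurable_pi_apply i)

omit [Fintype d] in
/-- two points with the same image in the torus differ by an integral vector -/
lemma exists_int (x x' : d → ℝ) (h : ∀ i, ((x i : ℝ) : UnitAddCircle) = x' i) :
    ∃ m : d → ℤ, ∀ i, x' i = x i + m i := by
  have h1 : ∀ i, ∃ m : ℤ, x' i = x i + m := by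
    intro i
    obtain ⟨m, hm⟩ := (QuotientAddGroup.eq.1 (h i))
    refine ⟨m, ?_⟩
    simp at hm
    linarith
  choose m hm using h1
  exact ⟨m, hm⟩

lemma mFourier_rep (m : d → ℤ) (y : UnitAddTorus d) :
    mFourier m y = Complex.exp (2 * Real.pi * Complex.I * ∑ i, (m i : ℂ) * (rep y i : ℂ)) := by
  rw [mFourier, ContinuousMap.coe_mk, Finset.mul_sum, Complex.exp_sum]
  refine Finset.prod_congr rfl fun i _ => ?_
  rw [← rep_coe y i, fourier_coe_apply]
  congr 1
  push_cast
  ring

end Pool.Agent.Q263.WJ
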