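import Mathlib
import Pool.Agent.Q263.WJ.Tor

/-!
Jacobi forms of lattice index: the function on the torus.
-/

set_option autoImplicit false

open MeasureTheory Finset Complex
open UpperHalfPlane hiding I
open scoped MatrixGroups

namespace Pool.Agent.Q263.WJ

variable {n : ℕ}

/-- the bilinear form with Gram matrix `A`, on complex vectors -/
noncomputable def form (A : Matrix (Fin n) (Fin n) ℤ) (z w : Fin n → ℂ) : ℂ :=
  ∑ i, ∑ j, (A i j : ℂ) * z i * w j

/-- the bilinear form with Gram matrix `A`, on real vectors -/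
noncomputable def bf (A : Matrix (Fin n) (Fin n) ℤ) (x y : Fin n → ℝ) : ℝ :=
  ∑ i, ∑ j, (A i j : ℝ) * x i * y j

lemma form_ofReal (A : Matrix (Fin n) (Fin n) ℤ) (x y : Fin n → ℝ) :
    form A (fun i => (x i : ℂ)) (fun i => (y i : ℂ)) = (bf A x y : ℂ) := by
  unfold form bf
  push_cast
  rfl

lemma form_add_left (A : Matrix (Fin n) (Fin n) ℤ) (z z' w : Fin n → ℂ) :
    form A (z + z') w = form A z w + form A z' w := by
  unfold form
  rw [← Finset.sum_add_distrib]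
  refine Finset.sum_congr rfl fun i _ => ?_
  rw [← Finset.sum_add_distrib]
  refine Finset.sum_congr rfl fun j _ => ?_
  simp only [Pi.add_apply]
  ring

lemma form_add_right (A : Matrix (Fin n) (Fin n) ℤ) (z w w' : Fin n → ℂ) :
    form A z (w + w') = form A z w + form A z w' := by
  unfold form
  rw [← Finset.sum_add_distrib]
  refine Finset.sum_congr rfl fun i _ => ?_
  rw [← Finset.sum_add_distrib]
  refine Finset.sum_congr rfl fun j _ => ?_
  simp only [Pi.add_apply]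
  ring

lemma form_smul_left (A : Matrix (Fin n) (Fin n) ℤ) (c : ℂ) (z w : Fin n → ℂ) :
    form A (fun i => z i * c) w = c * form A z w := by
  unfold form
  rw [Finset.mul_sum]
  refine Finset.sum_congr rfl fun i _ => ?_
  rw [Finset.mul_sum]
  refine Finset.sum_congr rfl fun j _ => ?_
  ring

lemma form_smul_right (A : Matrix (Fin n) (Fin n) ℤ) (c : ℂ) (z w : Fin n → ℂ) :
    form A z (fun i => w i * c) = c * form A z w := by
  unfold form
  rw [Finset.mul_sum]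
  refine Finset.sum_congr rfl fun i _ => ?_
  rw [Finset.mul_sum]
  refine Finset.sum_congr rfl fun j _ => ?_
  ring

lemma bf_symm (A : Matrix (Fin n) (Fin n) ℤ) (hA : A.IsSymm) (x y : Fin n → ℝ) :
    bf A x y = bf A y x := by
  unfold bf
  rw [Finset.sum_comm]
  refine Finset.sum_congr rfl fun i _ => Finset.sum_congr rfl fun j _ => ?_
  rw [hA.apply i j]
  ring

lemma bf_add_self (A : Matrix (Fin n) (Fin n) ℤ) (hA : A.IsSymm) (x y : Fin n → ℝ) :
    bf A (x + y) (x + y) = bf A x x + 2 * bf A y x + bf A y y := by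
  have h : bf A (x + y) (x + y) = bf A x x + bf A x y + bf A y x + bf A y y := by
    unfold bf
    simp only [← Finset.sum_add_distrib]
    refine Finset.sum_congr rfl fun i _ => Finset.sum_congr rfl fun j _ => ?_
    simp only [Pi.add_apply]
    ring
  rw [h, bf_symm A hA x y]
  ring

/-- the coefficient function -/
noncomputable def FF (f : ℕ → (Fin n → ℤ) → ℂ) (m : Fin n → ℤ) (τ : ℂ) : ℂ :=
  ∑' j : ℕ, f j m * cexp (2 * Real.pi * I * j * τ)

/-- the properties which are used -/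
structure JF (A : Matrix (Fin n) (Fin n) ℤ) (k : ℤ) (φ : ℍ → (Fin n → ℂ) → ℂ)
    (f : ℕ → (Fin n → ℤ) → ℂ) : Prop where
  cont : ∀ τ, Continuous (φ τ)
  T : ∀ (τ : ℍ) (z : Fin n → ℂ), φ (ModularGroup.T • τ) z = φ τ z
  S : ∀ (τ : ℍ) (z : Fin n → ℂ), φ (ModularGroup.S • τ) (fun i => z i / τ) =
    (τ : ℂ) ^ k * cexp (Real.pi * I * form A z z / τ) * φ τ z
  ell : ∀ (l m : Fin n → ℤ) (τ : ℍ) (z : Fin n → ℂ),
    φ τ (fun i => z i + l i * τ + m i) =
      cexp (-(Real.pi * I * form A (fun i => (l i : ℂ)) (fun i => (l i : ℂ)) * τ) -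
        2 * Real.pi * I * form A (fun i => (l i : ℂ)) z) * φ τ z
  four : ∀ (τ : ℍ) (z : Fin n → ℂ), HasSum (fun p : ℕ × (Fin n → ℤ) =>
    f p.1 p.2 * cexp (2 * Real.pi * I * (p.1 * τ + ∑ i, (p.2 i : ℂ) * z i))) (φ τ z)

/-- the function on the torus -/
noncomputable def g (A : Matrix (Fin n) (Fin n) ℤ) (φ : ℍ → (Fin n → ℂ) → ℂ) (τ : ℍ)
    (x t : Fin n → ℝ) : ℂ :=
  φ τ (fun i => (x i : ℂ) + t i * τ) * cexp (Real.pi * I * τ * (bf A t t : ℂ))

lemma coe_T (τ : ℍ) : ((ModularGroup.T • τ : ℍ) : ℂ) = τ + 1 := by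
  rw [UpperHalfPlane.modular_T_smul]
  simp [add_comm]

lemma coe_S (τ : ℍ) : ((ModularGroup.S • τ : ℍ) : ℂ) = -1 / τ := by
  rw [UpperHalfPlane.modular_S_smul]
  simp [neg_div, one_div]

section
variable {A : Matrix (Fin n) (Fin n) ℤ} {k : ℤ} {φ : ℍ → (Fin n → ℂ) → ℂ}
  {f : ℕ → (Fin n → ℤ) → ℂ}

lemma norm_exp_eq (a b : ℂ) (h : ∃ r : ℝ, a = b + I * r) : ‖cexp a‖ = ‖cexp b‖ := by
  obtain ⟨r, rfl⟩ := h
  rw [Complex.norm_exp, Complex.norm_exp]
  congr 1
  simp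

lemma g_T (h : JF A k φ f) (τ : ℍ) (x t : Fin n → ℝ) :
    ‖g A φ (ModularGroup.T • τ) x t‖ = ‖g A φ τ (x + t) t‖ := by
  unfold g
  rw [norm_mul, norm_mul, h.T, coe_T]
  congr 1
  · congr 2
    ext i
    simp only [Pi.add_apply]
    push_cast
    ring
  · apply norm_exp_eq
    refine ⟨Real.pi * bf A t t, ?_⟩
    push_cast
    ring

lemma g_x (h : JF A k φ f) (τ : ℍ) (x t : Fin n → ℝ) (m : Fin n → ℤ) :
    ‖g A φ τ (fun i => x i + m i) t‖ = ‖g A φ τ x t‖ := by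
  unfold g
  rw [norm_mul, norm_mul]
  congr 2
  have h1 := h.ell 0 m τ (fun i => (x i : ℂ) + t i * τ)
  have e1 : form A (fun i => (((0 : Fin n → ℤ) i : ℤ) : ℂ)) (fun i => (((0 : Fin n → ℤ) i : ℤ) : ℂ)) = 0 := by
    unfold form
    simp
  have e2 : form A (fun i => (((0 : Fin n → ℤ) i : ℤ) : ℂ)) (fun i => (x i : ℂ) + t i * τ) = 0 := by
    unfold form
    simp
  rw [e1, e2] at h1
  simp only [mul_zero, zero_mul, neg_zero, sub_zero, Complex.exp_zero, one_mul] at h1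
  rw [← h1]
  congr 1
  ext i
  simp only [Pi.zero_apply]
  push_cast
  ring

lemma g_t (hA : A.IsSymm) (h : JF A k φ f) (τ : ℍ) (x t : Fin n → ℝ) (l : Fin n → ℤ) :
    ‖g A φ τ x (fun i => t i + l i)‖ = ‖g A φ τ x t‖ := by
  unfold g
  have h1 := h.ell l 0 τ (fun i => (x i : ℂ) + t i * τ)
  have e0 : (fun i => ((x i : ℂ) + t i * τ) + l i * τ + (((0 : Fin n → ℤ) i : ℤ) : ℂ)) =
      (fun i => (x i : ℂ) + ((t i + l i : ℝ) : ℂ) * τ) := by
    ext i
    simp only [Pi.zero_apply]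
    push_cast
    ring
  rw [e0] at h1
  rw [h1, mul_assoc, mul_comm (φ τ _), ← mul_assoc, ← Complex.exp_add, norm_mul, mul_comm, norm_mul]
  congr 1
  apply norm_exp_eq
  have e1 : form A (fun i => (l i : ℂ)) (fun i => (l i : ℂ)) =
      (bf A (fun i => (l i : ℝ)) (fun i => (l i : ℝ)) : ℂ) := by
    rw [← form_ofReal]
    push_cast
    rfl
  have e2 : form A (fun i => (l i : ℂ)) (fun i => (x i : ℂ) + t i * τ) =
      (bf A (fun i => (l i : ℝ)) x : ℂ) + τ * (bf A (fun i => (l i : ℝ)) t : ℂ) := by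
    rw [← form_ofReal, ← form_ofReal, ← form_smul_right, ← form_add_right]
    push_cast
    rfl
  have e3 : bf A (fun i => t i + l i) (fun i => t i + l i) =
      bf A t t + 2 * bf A (fun i => (l i : ℝ)) t + bf A (fun i => (l i : ℝ)) (fun i => (l i : ℝ)) :=
    bf_add_self A hA t (fun i => (l i : ℝ))
  rw [e1, e2, e3]
  refine ⟨-(2 * Real.pi * bf A (fun i => (l i : ℝ)) x), ?_⟩
  push_cast
  ring

lemma g_S (h : JF A k φ f) (τ : ℍ) (x t : Fin n → ℝ) :
    ‖g A φ (ModularGroup.S • τ) t (fun i => -x i)‖ = ‖(τ : ℂ)‖ ^ k * ‖g A φ τ x t‖ := by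
  have hτ : (τ : ℂ) ≠ 0 := UpperHalfPlane.ne_zero τ
  unfold g
  have h1 := h.S τ (fun i => (x i : ℂ) + t i * τ)
  have e0 : (fun i => ((x i : ℂ) + t i * τ) / τ) =
      (fun i => (t i : ℂ) + ((-x i : ℝ) : ℂ) * ((ModularGroup.S • τ : ℍ) : ℂ)) := by
    ext i
    rw [coe_S]
    push_cast
    field_simp
    ring
  rw [e0] at h1
  rw [h1]
  have e1 : form A (fun i => (x i : ℂ) + t i * τ) (fun i => (x i : ℂ) + t i * τ) =
      (bf A x x : ℂ) + τ * ((bf A x t : ℂ) + (bf A t x : ℂ)) + τ ^ 2 * (bf A t t : ℂ) := by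
    rw [← form_ofReal, ← form_ofReal, ← form_ofReal, ← form_ofReal]
    have e2 : (fun i => (x i : ℂ) + t i * τ) = (fun i => (x i : ℂ)) + (fun i => (t i : ℂ) * τ) := rfl
    rw [e2, form_add_left, form_add_right, form_add_right, form_smul_left, form_smul_left,
      form_smul_right, form_smul_right]
    ring
  have e3 : bf A (fun i => -x i) (fun i => -x i) = bf A x x := by
    unfold bf
    refine Finset.sum_congr rfl fun i _ => Finset.sum_congr rfl fun j _ => ?_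
    ring
  rw [e1, e3, coe_S, norm_mul, norm_mul, norm_mul, norm_zpow, norm_mul]
  have e4 : ‖cexp (Real.pi * I * ((bf A x x : ℂ) + τ * ((bf A x t : ℂ) + (bf A t x : ℂ)) +
      τ ^ 2 * (bf A t t : ℂ)) / τ)‖ * ‖cexp (Real.pi * I * (-1 / τ) * (bf A x x : ℂ))‖ =
      ‖cexp (Real.pi * I * τ * (bf A t t : ℂ))‖ := by
    rw [← norm_mul, ← Complex.exp_add]
    apply norm_exp_eq
    refine ⟨Real.pi * (bf A x t + bf A t x), ?_⟩
    push_cast
    field_simp
    ring
  calc ‖(τ : ℂ)‖ ^ k * ‖cexp (Real.pi * I * ((bf A x x : ℂ) + τ * ((bf A x t : ℂ) + (bf A t x : ℂ)) +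
      τ ^ 2 * (bf A t t : ℂ)) / τ)‖ * ‖φ τ (fun i => (x i : ℂ) + t i * τ)‖ *
        ‖cexp (Real.pi * I * (-1 / τ) * (bf A x x : ℂ))‖
      = ‖(τ : ℂ)‖ ^ k * ‖φ τ (fun i => (x i : ℂ) + t i * τ)‖ *
        (‖cexp (Real.pi * I * ((bf A x x : ℂ) + τ * ((bf A x t : ℂ) + (bf A t x : ℂ)) +
      τ ^ 2 * (bf A t t : ℂ)) / τ)‖ * ‖cexp (Real.pi * I * (-1 / τ) * (bf A x x : ℂ))‖) := by ring
    _ = _ := by
        rw [e4]
        ring

end

end Pool.Agent.Q263.WJ
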