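import Mathlib
import Pool.Agent.Q263.WJ.Jac

/-!
Fourier coefficients of Jacobi forms of lattice index.
-/

set_option autoImplicit false

open MeasureTheory Finset Complex UnitAddTorus
open UpperHalfPlane hiding I
open scoped MatrixGroups

namespace Pool.Agent.Q263.WJ

variable {n : ℕ} {A : Matrix (Fin n) (Fin n) ℤ} {k : ℤ} {φ : ℍ → (Fin n → ℂ) → ℂ}
  {f : ℕ → (Fin n → ℤ) → ℂ}

lemma exp_split3 (j : ℕ) (m : Fin n → ℤ) (τ : ℂ) (x : Fin n → ℝ) (w : Fin n → ℂ) :
    cexp (2 * Real.pi * I * (j * τ + ∑ i, (m i : ℂ) * ((x i : ℂ) + w i * τ))) =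
      cexp (2 * Real.pi * I * j * τ) * cexp (2 * Real.pi * I * τ * ∑ i, (m i : ℂ) * w i) *
        cexp (2 * Real.pi * I * ∑ i, (m i : ℂ) * (x i : ℂ)) := by
  rw [← Complex.exp_add, ← Complex.exp_add]
  congr 1
  have e : ∑ i, (m i : ℂ) * ((x i : ℂ) + w i * τ) =
      (∑ i, (m i : ℂ) * (x i : ℂ)) + τ * ∑ i, (m i : ℂ) * w i := by
    rw [Finset.mul_sum, ← Finset.sum_add_distrib]
    refine Finset.sum_congr rfl fun i _ => ?_
    ring
  rw [e]
  ring

lemma summable_f (h : JF A k φ f) (τ : ℍ) (z : Fin n → ℂ) :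
    Summable (fun p : ℕ × (Fin n → ℤ) =>
      ‖f p.1 p.2 * cexp (2 * Real.pi * I * (p.1 * τ + ∑ i, (p.2 i : ℂ) * z i))‖) :=
  (h.four τ z).summable.norm

lemma summable_j (h : JF A k φ f) (τ : ℍ) (m : Fin n → ℤ) :
    Summable (fun j : ℕ => ‖f j m * cexp (2 * Real.pi * I * j * τ)‖) := by
  have h1 := (summable_f h τ 0).comp_injective (i := fun j : ℕ => (j, m)) (by
    intro a b hab
    exact (Prod.ext_iff.1 hab).1)
  refine h1.congr fun j => ?_
  simp only [Function.comp, Pi.zero_apply, mul_zero, Finset.sum_const_zero, add_zero]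
  congr 3
  ring

/-- the expansion in `x` -/
lemma hasSum_m (h : JF A k φ f) (τ : ℍ) (w : Fin n → ℂ) (x : Fin n → ℝ) :
    HasSum (fun m : Fin n → ℤ => FF f m τ * cexp (2 * Real.pi * I * τ * ∑ i, (m i : ℂ) * w i) *
      cexp (2 * Real.pi * I * ∑ i, (m i : ℂ) * (x i : ℂ))) (φ τ (fun i => (x i : ℂ) + w i * τ)) := by
  have h1 := h.four τ (fun i => (x i : ℂ) + w i * τ)
  rw [← (Equiv.prodComm (Fin n → ℤ) ℕ).hasSum_iff] at h1
  have h2 := h1.prod_fiberwise (g := fun m : Fin n → ℤ =>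
    FF f m τ * cexp (2 * Real.pi * I * τ * ∑ i, (m i : ℂ) * w i) *
      cexp (2 * Real.pi * I * ∑ i, (m i : ℂ) * (x i : ℂ))) (by
    intro m
    have h3 := (summable_j h τ m).of_norm.hasSum
    have h4 := (h3.mul_right (cexp (2 * Real.pi * I * τ * ∑ i, (m i : ℂ) * w i))).mul_right
      (cexp (2 * Real.pi * I * ∑ i, (m i : ℂ) * (x i : ℂ)))
    refine h4.congr_fun fun j => ?_
    simp only [Function.comp, Equiv.prodComm_apply, Prod.swap_prod_mk]
    rw [exp_split3]
    ring)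
  exact h2

lemma summable_m (h : JF A k φ f) (τ : ℍ) (w : Fin n → ℂ) :
    Summable (fun m : Fin n → ℤ => ‖FF f m τ * cexp (2 * Real.pi * I * τ * ∑ i, (m i : ℂ) * w i)‖) := by
  have h1 := summable_f h τ (fun i => w i * τ)
  rw [← (Equiv.prodComm (Fin n → ℤ) ℕ).summable_iff] at h1
  have h2 := h1.prod
  refine Summable.of_nonneg_of_le (fun _ => norm_nonneg _) (fun m => ?_) h2
  have h3 := (summable_j h τ m)
  have e : ∀ j : ℕ, ‖f j m * cexp (2 * Real.pi * I * (j * τ + ∑ i, (m i : ℂ) * (w i * τ)))‖ =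
      ‖f j m * cexp (2 * Real.pi * I * j * τ)‖ *
        ‖cexp (2 * Real.pi * I * τ * ∑ i, (m i : ℂ) * w i)‖ := by
    intro j
    have e1 := exp_split3 j m τ 0 w
    simp only [Pi.zero_apply, Complex.ofReal_zero, zero_add, mul_zero, Finset.sum_const_zero,
      Complex.exp_zero, mul_one] at e1
    rw [e1, ← norm_mul]
    congr 1
    ring
  calc ‖FF f m τ * cexp (2 * Real.pi * I * τ * ∑ i, (m i : ℂ) * w i)‖
      = ‖FF f m τ‖ * ‖cexp (2 * Real.pi * I * τ * ∑ i, (m i : ℂ) * w i)‖ := norm_mul _ _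
    _ ≤ (∑' j : ℕ, ‖f j m * cexp (2 * Real.pi * I * j * τ)‖) *
        ‖cexp (2 * Real.pi * I * τ * ∑ i, (m i : ℂ) * w i)‖ :=
        mul_le_mul_of_nonneg_right (norm_tsum_le_tsum_norm h3) (norm_nonneg _)
    _ = _ := by
        rw [← tsum_mul_right]
        refine tsum_congr fun j => ?_
        simp only [Function.comp, Equiv.prodComm_apply, Prod.swap_prod_mk]
        rw [e j]

/-- the coefficients of the function on the torus -/
noncomputable def aa (A : Matrix (Fin n) (Fin n) ℤ) (f : ℕ → (Fin n → ℤ) → ℂ) (τ : ℍ)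
    (t : Fin n → ℝ) (m : Fin n → ℤ) : ℂ :=
  FF f m τ * cexp (2 * Real.pi * I * τ * ∑ i, (m i : ℂ) * (t i : ℂ)) *
    cexp (Real.pi * I * τ * (bf A t t : ℂ))

lemma summable_aa (h : JF A k φ f) (τ : ℍ) (t : Fin n → ℝ) :
    Summable (fun m => ‖aa A f τ t m‖) := by
  unfold aa
  have h1 := (summable_m h τ (fun i => (t i : ℂ))).mul_right ‖cexp (Real.pi * I * τ * (bf A t t : ℂ))‖
  refine h1.congr fun m => ?_
  rw [← norm_mul]

lemma hasSum_aa (h : JF A k φ f) (τ : ℍ) (t : Fin n → ℝ) (y : UnitAddTorus (Fin n)) :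
    HasSum (fun m => aa A f τ t m * mFourier m y) (g A φ τ (rep y) t) := by
  have h1 := (hasSum_m h τ (fun i => (t i : ℂ)) (rep y)).mul_right
    (cexp (Real.pi * I * τ * (bf A t t : ℂ)))
  unfold g
  refine h1.congr_fun fun m => ?_
  rw [mFourier_rep]
  unfold aa
  ring

/-- `A l` -/
def Al (A : Matrix (Fin n) (Fin n) ℤ) (l : Fin n → ℤ) (i : Fin n) : ℤ := ∑ j, A i j * l j

/-- the relation between the coefficients in one class -/
lemma FF_shift (hA : A.IsSymm) (h : JF A k φ f) (τ : ℍ) (m l : Fin n → ℤ) :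
    FF f (m + Al A l) τ = FF f m τ * cexp (2 * Real.pi * I * τ *
      ((∑ i, (m i : ℂ) * (l i : ℂ)) + (bf A (fun i => (l i : ℝ)) (fun i => (l i : ℝ)) : ℂ) / 2)) := by
  classical
  set Ql : ℂ := (bf A (fun i => (l i : ℝ)) (fun i => (l i : ℝ)) : ℂ) with hQl
  have e1 : form A (fun i => (l i : ℂ)) (fun i => (l i : ℂ)) = Ql := by
    rw [hQl, ← form_ofReal]
    push_cast
    rfl
  have e2 : ∀ x : Fin n → ℝ, form A (fun i => (l i : ℂ)) (fun i => (x i : ℂ)) =
      ∑ i, (Al A l i : ℂ) * (x i : ℂ) := by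
    intro x
    unfold form Al
    rw [Finset.sum_comm]
    refine Finset.sum_congr rfl fun i _ => ?_
    push_cast
    rw [Finset.sum_mul]
    refine Finset.sum_congr rfl fun j _ => ?_
    rw [hA.apply i j]
  -- two expansions
  have h1 := coeff_unique (d := Fin n) (fun m : Fin n → ℤ => m)
    (fun m => FF f m τ * cexp (2 * Real.pi * I * τ * ∑ i, (m i : ℂ) * (l i : ℂ)))
    (summable_m h τ (fun i => (l i : ℂ)))
    (fun m : Fin n → ℤ => m - Al A l)
    (fun m => FF f m τ * cexp (-(Real.pi * I * Ql * τ)))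
    (by
      have h2 := (summable_m h τ 0).mul_right ‖cexp (-(Real.pi * I * Ql * τ))‖
      refine h2.congr fun m => ?_
      simp only [Pi.zero_apply, mul_zero, Finset.sum_const_zero, Complex.exp_zero, mul_one]
      rw [← norm_mul])
    (fun y => φ τ (fun i => (rep y i : ℂ) + l i * τ))
    (fun y => by
      have h2 := hasSum_m h τ (fun i => (l i : ℂ)) (rep y)
      refine h2.congr_fun fun m => ?_
      rw [mFourier_rep])
    (fun y => by
      have h2 := (hasSum_m h τ 0 (rep y)).mul_left (cexp (-(Real.pi * I * Ql * τ) -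
        2 * Real.pi * I * ∑ i, (Al A l i : ℂ) * (rep y i : ℂ)))
      have h3 := h.ell l 0 τ (fun i => (rep y i : ℂ))
      rw [e1, e2] at h3
      have e4 : (fun i => (rep y i : ℂ) + l i * τ + (((0 : Fin n → ℤ) i : ℤ) : ℂ)) =
          (fun i => (rep y i : ℂ) + l i * τ) := by
        ext i
        simp
      have e5 : (fun i => (rep y i : ℂ) + (0 : Fin n → ℂ) i * τ) = (fun i => (rep y i : ℂ)) := by
        ext i
        simp
      rw [e4] at h3
      rw [e5, ← h3] at h2
      refine h2.congr_fun fun m => ?_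
      rw [mFourier_rep]
      simp only [Pi.zero_apply, mul_zero, Finset.sum_const_zero, Complex.exp_zero, mul_one]
      have e6 : ∑ i, (((m - Al A l) i : ℤ) : ℂ) * (rep y i : ℂ) =
          (∑ i, (m i : ℂ) * (rep y i : ℂ)) - ∑ i, (Al A l i : ℂ) * (rep y i : ℂ) := by
        rw [← Finset.sum_sub_distrib]
        refine Finset.sum_congr rfl fun i _ => ?_
        simp only [Pi.sub_apply]
        push_cast
        ring
      rw [e6]
      have e7 : cexp (2 * Real.pi * I * ((∑ i, (m i : ℂ) * (rep y i : ℂ)) -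
          ∑ i, (Al A l i : ℂ) * (rep y i : ℂ))) = cexp (2 * Real.pi * I * ∑ i, (m i : ℂ) * (rep y i : ℂ)) *
          cexp (-(2 * Real.pi * I * ∑ i, (Al A l i : ℂ) * (rep y i : ℂ))) := by
        rw [← Complex.exp_add]
        congr 1
        ring
      have e8 : cexp (-(Real.pi * I * Ql * τ) - 2 * Real.pi * I * ∑ i, (Al A l i : ℂ) * (rep y i : ℂ)) =
          cexp (-(Real.pi * I * Ql * τ)) *
          cexp (-(2 * Real.pi * I * ∑ i, (Al A l i : ℂ) * (rep y i : ℂ))) := by
        rw [← Complex.exp_add]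
        congr 1
      rw [e7, e8]
      ring) m
  rw [tsum_eq_single m (fun i hi => if_neg hi), if_pos rfl,
    tsum_eq_single (m + Al A l) (fun i hi => if_neg (fun h' => hi (by rw [← h']; simp))),
    if_pos (by simp)] at h1
  have h5 : FF f (m + Al A l) τ = FF f (m + Al A l) τ * cexp (-(Real.pi * I * Ql * τ)) *
      cexp (Real.pi * I * Ql * τ) := by
    rw [mul_assoc, ← Complex.exp_add, neg_add_cancel, Complex.exp_zero, mul_one]
  rw [h5, ← h1, mul_assoc, ← Complex.exp_add]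
  congr 2
  ring

/-- the first coefficients vanish -/
lemma f_zero (hA : A.IsSymm) (h : JF A k φ f) (m l : Fin n → ℤ) (c : ℤ)
    (hc : ((∑ i, (m i : ℝ) * (l i : ℝ)) + bf A (fun i => (l i : ℝ)) (fun i => (l i : ℝ)) / 2) = c)
    (j : ℕ) (hj : (j : ℤ) < c) : f j (m + Al A l) = 0 := by
  classical
  have hc' : (∑ i, (m i : ℂ) * (l i : ℂ)) + (bf A (fun i => (l i : ℝ)) (fun i => (l i : ℝ)) : ℂ) / 2 = c := by
    have := congrArg (fun x : ℝ => (x : ℂ)) hc
    push_cast at this
    exact this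
  have hs : ∀ m' : Fin n → ℤ, ∀ y : UnitAddTorus (Fin 1), ∀ e : ℤ, HasSum (fun j : ℕ =>
      f j m' * cexp (2 * Real.pi * I * (j + e) * I) * mFourier (fun _ : Fin 1 => (j : ℤ) + e) y)
      (FF f m' ((rep y 0 : ℂ) + I) * cexp (2 * Real.pi * I * e * ((rep y 0 : ℂ) + I))) := by
    intro m' y e
    set τ : ℍ := ⟨(rep y 0 : ℂ) + I, by simp⟩ with hτ
    have h1 := (summable_j h τ m').of_norm.hasSum.mul_right
      (cexp (2 * Real.pi * I * e * ((rep y 0 : ℂ) + I)))
    refine h1.congr_fun fun j => ?_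
    rw [mFourier_rep]
    simp only [Finset.univ_unique, Fin.default_eq_zero, Finset.sum_singleton]
    have hτ' : (τ : ℂ) = (rep y 0 : ℂ) + I := rfl
    rw [hτ', mul_assoc (f j m'), mul_assoc (f j m'), ← Complex.exp_add, ← Complex.exp_add]
    congr 2
    push_cast
    ring
  have hsum : ∀ m' : Fin n → ℤ, ∀ e : ℤ, Summable (fun j : ℕ =>
      ‖f j m' * cexp (2 * Real.pi * I * (j + e) * I)‖) := by
    intro m' e
    set τ : ℍ := ⟨I, by simp⟩ with hτ
    have h1 := (summable_j h τ m').mul_right ‖cexp (2 * Real.pi * I * e * I)‖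
    refine h1.congr fun j => ?_
    have hτ' : (τ : ℂ) = I := rfl
    rw [← norm_mul, hτ', mul_assoc, ← Complex.exp_add]
    congr 3
    ring
  have h1 := coeff_unique (d := Fin 1) (fun j : ℕ => fun _ : Fin 1 => (j : ℤ) + 0)
    (fun j => f j (m + Al A l) * cexp (2 * Real.pi * I * (j + (0 : ℤ)) * I)) (hsum _ 0)
    (fun j : ℕ => fun _ : Fin 1 => (j : ℤ) + c)
    (fun j => f j m * cexp (2 * Real.pi * I * (j + c) * I)) (hsum _ c)
    (fun y => FF f (m + Al A l) ((rep y 0 : ℂ) + I))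
    (fun y => by
      have h2 := hs (m + Al A l) y 0
      simp only [Int.cast_zero, mul_zero, zero_mul, Complex.exp_zero, mul_one] at h2 ⊢
      exact h2)
    (fun y => by
      have h2 := hs m y c
      have h3 := FF_shift hA h (⟨(rep y 0 : ℂ) + I, by simp⟩ : ℍ) m l
      have hτ' : ((⟨(rep y 0 : ℂ) + I, by simp⟩ : ℍ) : ℂ) = (rep y 0 : ℂ) + I := rfl
      rw [hc', hτ'] at h3
      rw [h3]
      have e1 : 2 * Real.pi * I * ((rep y 0 : ℂ) + I) * c = 2 * Real.pi * I * c * ((rep y 0 : ℂ) + I) := by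
        ring
      rw [e1]
      exact h2) (fun _ => (j : ℤ))
  rw [tsum_eq_single j (fun i hi => if_neg (fun h' => hi (by
      have := congrFun h' 0
      simp only [add_zero] at this
      exact_mod_cast this))), if_pos (by simp)] at h1
  have h2 : ∑' i : ℕ, (if (fun _ : Fin 1 => (i : ℤ) + c) = (fun _ => (j : ℤ)) then
      f i m * cexp (2 * Real.pi * I * (i + c) * I) else 0) = 0 := by
    have h3 : (fun i : ℕ => (if (fun _ : Fin 1 => (i : ℤ) + c) = (fun _ => (j : ℤ)) then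
        f i m * cexp (2 * Real.pi * I * (i + c) * I) else 0)) = fun _ => 0 := by
      funext i
      refine if_neg (fun h' => ?_)
      have := congrFun h' 0
      omega
    rw [h3, tsum_zero]
  rw [h2] at h1
  rcases mul_eq_zero.1 h1 with h3 | h3
  · exact h3
  · exact absurd h3 (Complex.exp_ne_zero _)

end Pool.Agent.Q263.WJ
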