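import Mathlib
import Pool.Agent.Q263.WJ.Fou

/-!
Upper and lower bounds.
-/

set_option autoImplicit false

open MeasureTheory Finset Complex UnitAddTorus
open UpperHalfPlane hiding I
open scoped MatrixGroups

namespace Pool.Agent.Q263.WJ

variable {n : ℕ} {A : Matrix (Fin n) (Fin n) ℤ} {k : ℤ} {φ : ℍ → (Fin n → ℂ) → ℂ}
  {f : ℕ → (Fin n → ℤ) → ℂ}

/-- Every class of `L' / L` contains a vector of norm at most `κ`: in terms of `m = A ℓ`,
`(ℓ, ℓ) ≤ κ` says that `2 m s + (s, s) ≥ - κ` for all real `s`. -/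
def Cov (A : Matrix (Fin n) (Fin n) ℤ) (κ : ℝ) : Prop :=
  ∀ m : Fin n → ℤ, ∃ m' l : Fin n → ℤ, m = m' + Al A l ∧
    ∀ s : Fin n → ℝ, -κ ≤ 2 * (∑ i, (m' i : ℝ) * s i) + bf A s s

lemma bf_Al (hA : A.IsSymm) (l : Fin n → ℤ) (s : Fin n → ℝ) :
    ∑ i, (Al A l i : ℝ) * s i = bf A (fun i => (l i : ℝ)) s := by
  unfold bf Al
  rw [Finset.sum_comm]
  refine Finset.sum_congr rfl fun i _ => ?_
  push_cast
  rw [Finset.sum_mul]
  refine Finset.sum_congr rfl fun j _ => ?_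
  rw [hA.apply i j]

lemma even_sum {ι : Type} (B : ι → ι → ℤ) (hB : ∀ i j, B i j = B j i) (hd : ∀ i, Even (B i i))
    (s : Finset ι) : Even (∑ i ∈ s, ∑ j ∈ s, B i j) := by
  classical
  induction s using Finset.induction_on with
  | empty => simp
  | insert a s ha ih =>
    have h1 : ∑ i ∈ insert a s, ∑ j ∈ insert a s, B i j =
        B a a + 2 * (∑ j ∈ s, B a j) + ∑ i ∈ s, ∑ j ∈ s, B i j := by
      rw [Finset.sum_insert ha, Finset.sum_insert ha]
      have h2 : ∑ i ∈ s, ∑ j ∈ insert a s, B i j = (∑ j ∈ s, B a j) + ∑ i ∈ s, ∑ j ∈ s, B i j := by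
        rw [← Finset.sum_add_distrib]
        refine Finset.sum_congr rfl fun i _ => ?_
        rw [Finset.sum_insert ha, hB i a]
      rw [h2]
      ring
    rw [h1]
    exact ((hd a).add (even_two_mul _)).add ih

lemma exists_c (hA : A.IsSymm) (heven : ∀ i, Even (A i i)) (m l : Fin n → ℤ) :
    ∃ c : ℤ, ((∑ i, (m i : ℝ) * (l i : ℝ)) +
      bf A (fun i => (l i : ℝ)) (fun i => (l i : ℝ)) / 2) = c := by
  obtain ⟨r, hr⟩ := even_sum (fun i j => A i j * l i * l j) (fun i j => by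
    rw [hA.apply i j]
    ring) (fun i => by
    rw [mul_assoc]
    exact (heven i).mul_right _) (univ : Finset (Fin n))
  refine ⟨(∑ i, m i * l i) + r, ?_⟩
  have h1 : bf A (fun i => (l i : ℝ)) (fun i => (l i : ℝ)) =
      ((∑ i, ∑ j, A i j * l i * l j : ℤ) : ℝ) := by
    unfold bf
    push_cast
    rfl
  rw [h1, hr]
  push_cast
  ring

/-- the exponents are bounded below -/
lemma expo (hA : A.IsSymm) (heven : ∀ i, Even (A i i)) (h : JF A k φ f) (κ : ℝ) (hκ : Cov A κ)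
    (j : ℕ) (m : Fin n → ℤ) (hf : f j m ≠ 0) (t : Fin n → ℝ) :
    -κ ≤ 2 * ((j : ℝ) + ∑ i, (m i : ℝ) * t i) + bf A t t := by
  obtain ⟨m', l, rfl, h1⟩ := hκ m
  -- the integer `c`
  obtain ⟨c, hc⟩ := exists_c hA heven m' l
  have hjc : c ≤ j := by
    by_contra hlt
    exact hf (f_zero hA h m' l c hc j (by omega))
  have hjc' : (c : ℝ) ≤ j := by exact_mod_cast hjc
  have h2 := h1 (t + fun i => (l i : ℝ))
  rw [bf_add_self A hA] at h2
  have e1 : ∑ i, (m' i : ℝ) * (t + fun i => (l i : ℝ)) i =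
      (∑ i, (m' i : ℝ) * t i) + ∑ i, (m' i : ℝ) * (l i : ℝ) := by
    rw [← Finset.sum_add_distrib]
    refine Finset.sum_congr rfl fun i _ => ?_
    simp only [Pi.add_apply]
    ring
  have e2 : ∑ i, (((m' + Al A l) i : ℤ) : ℝ) * t i =
      (∑ i, (m' i : ℝ) * t i) + bf A (fun i => (l i : ℝ)) t := by
    rw [← bf_Al hA, ← Finset.sum_add_distrib]
    refine Finset.sum_congr rfl fun i _ => ?_
    simp only [Pi.add_apply]
    push_cast
    ring
  rw [e1] at h2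
  rw [e2]
  linarith

lemma norm_qexp (j : ℕ) (m : Fin n → ℤ) (τ : ℍ) (x t : Fin n → ℝ) :
    ‖cexp (2 * Real.pi * I * (j * τ + ∑ i, (m i : ℂ) * ((x i : ℂ) + t i * τ)))‖ =
      Real.exp (-(2 * Real.pi * τ.im * (j + ∑ i, (m i : ℝ) * t i))) := by
  rw [Complex.norm_exp]
  congr 1
  have e : (2 * Real.pi * I * (j * τ + ∑ i, (m i : ℂ) * ((x i : ℂ) + t i * τ)) : ℂ) =
      ((2 * Real.pi * (∑ i, (m i : ℝ) * x i) : ℝ) : ℂ) * I +
        ((2 * Real.pi * ((j : ℝ) + ∑ i, (m i : ℝ) * t i) : ℝ) : ℂ) * (I * τ) := by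
    have e1 : ∑ i, (m i : ℂ) * ((x i : ℂ) + t i * τ) =
        (∑ i, (m i : ℂ) * (x i : ℂ)) + (∑ i, (m i : ℂ) * (t i : ℂ)) * τ := by
      rw [Finset.sum_mul, ← Finset.sum_add_distrib]
      refine Finset.sum_congr rfl fun i _ => ?_
      ring
    rw [e1]
    push_cast
    ring
  rw [e, Complex.add_re, Complex.re_ofReal_mul, Complex.re_ofReal_mul, Complex.I_re]
  have e2 : (I * (τ : ℂ)).re = -τ.im := by
    rw [Complex.mul_re, Complex.I_re, Complex.I_im]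
    simp
  rw [e2]
  ring

lemma norm_gauss (τ : ℍ) (t : Fin n → ℝ) :
    ‖cexp (Real.pi * I * τ * (bf A t t : ℂ))‖ = Real.exp (-(Real.pi * τ.im * bf A t t)) := by
  rw [Complex.norm_exp]
  congr 1
  have e : (Real.pi * I * τ * (bf A t t : ℂ) : ℂ) = ((Real.pi * bf A t t : ℝ) : ℂ) * (I * τ) := by
    push_cast
    ring
  rw [e, Complex.re_ofReal_mul]
  have e2 : (I * (τ : ℂ)).re = -τ.im := by
    rw [Complex.mul_re, Complex.I_re, Complex.I_im]
    simp
  rw [e2]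
  ring

/-- the finite sum which bounds the theta series -/
noncomputable def CC (f : ℕ → (Fin n → ℤ) → ℂ) (v : ℝ) : ℝ :=
  ∑ ε : Finset (Fin n), ∑' p : ℕ × (Fin n → ℤ), ‖f p.1 p.2‖ *
    Real.exp (-(2 * Real.pi * v * (p.1 + ∑ i ∈ ε, (p.2 i : ℝ))))

lemma summable_CC (h : JF A k φ f) (v : ℝ) (hv : 0 < v) (ε : Finset (Fin n)) :
    Summable (fun p : ℕ × (Fin n → ℤ) => ‖f p.1 p.2‖ *
      Real.exp (-(2 * Real.pi * v * (p.1 + ∑ i ∈ ε, (p.2 i : ℝ))))) := by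
  classical
  set τ : ℍ := ⟨(v : ℂ) * I, by simpa using hv⟩ with hτ
  have hτ' : (τ : ℂ) = (v : ℂ) * I := rfl
  have him : τ.im = v := by
    change ((v : ℂ) * I).im = v
    simp
  have h1 := summable_f h τ (fun i => ((0 : Fin n → ℝ) i : ℂ) + ((if i ∈ ε then (1 : ℝ) else 0 : ℝ) : ℂ) * τ)
  refine h1.congr fun p => ?_
  rw [norm_mul, norm_qexp p.1 p.2 τ 0 (fun i => if i ∈ ε then (1 : ℝ) else 0), him]
  congr 4
  rw [← Finset.sum_filter_add_sum_filter_not univ (fun i => i ∈ ε)]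
  have e1 : ∑ i ∈ univ.filter (fun i => i ∈ ε), (p.2 i : ℝ) * (if i ∈ ε then (1 : ℝ) else 0) =
      ∑ i ∈ ε, (p.2 i : ℝ) := by
    rw [Finset.filter_mem_eq_inter, Finset.univ_inter]
    refine Finset.sum_congr rfl fun i hi => ?_
    rw [if_pos hi, mul_one]
  have e2 : ∑ i ∈ univ.filter (fun i => ¬ i ∈ ε), (p.2 i : ℝ) * (if i ∈ ε then (1 : ℝ) else 0) = 0 := by
    apply Finset.sum_eq_zero
    intro i hi
    rw [if_neg (Finset.mem_filter.1 hi).2, mul_zero]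
  rw [e1, e2, add_zero]

/-- the upper bound -/
lemma g_le (hA : A.IsSymm) (heven : ∀ i, Even (A i i)) (hpos : ∀ s : Fin n → ℝ, 0 ≤ bf A s s)
    (h : JF A k φ f) (κ : ℝ) (hκ : Cov A κ) (v₀ : ℝ) (hv₀ : 0 < v₀) (τ : ℍ) (hτ : v₀ ≤ τ.im)
    (x t : Fin n → ℝ) (ht : ∀ i, 0 ≤ t i ∧ t i ≤ 1) :
    ‖g A φ τ x t‖ ≤ Real.exp (Real.pi * κ * (τ.im - v₀)) * CC f v₀ := by
  classical
  unfold g
  have h1 := h.four τ (fun i => (x i : ℂ) + t i * τ)
  rw [norm_mul, norm_gauss]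
  have hpi := Real.pi_pos
  have hle : ∀ p : ℕ × (Fin n → ℤ),
      ‖f p.1 p.2 * cexp (2 * Real.pi * I * (p.1 * τ + ∑ i, (p.2 i : ℂ) * ((x i : ℂ) + t i * τ)))‖ *
        Real.exp (-(Real.pi * τ.im * bf A t t)) ≤
      Real.exp (Real.pi * κ * (τ.im - v₀)) * ∑ ε : Finset (Fin n), ‖f p.1 p.2‖ *
        Real.exp (-(2 * Real.pi * v₀ * (p.1 + ∑ i ∈ ε, (p.2 i : ℝ)))) := by
    intro p
    rw [norm_mul, norm_qexp, mul_assoc, ← Real.exp_add]
    by_cases hf : f p.1 p.2 = 0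
    · rw [hf]
      simp
    have h2 := expo hA heven h κ hκ p.1 p.2 hf t
    have h3 := hpos t
    have h4 : ∑ i ∈ univ.filter (fun i => p.2 i < 0), (p.2 i : ℝ) ≤ ∑ i, (p.2 i : ℝ) * t i := by
      rw [Finset.sum_filter]
      apply Finset.sum_le_sum
      intro i _
      obtain ⟨h5, h6⟩ := ht i
      split_ifs with h7
      · have h8 : (p.2 i : ℝ) < 0 := by exact_mod_cast h7
        nlinarith
      · have h8 : (0 : ℝ) ≤ (p.2 i : ℝ) := by exact_mod_cast not_lt.1 h7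
        positivity
    have h5 : ‖f p.1 p.2‖ * Real.exp (-(2 * Real.pi * v₀ * (p.1 + ∑ i ∈ univ.filter (fun i => p.2 i < 0),
        (p.2 i : ℝ)))) ≤ ∑ ε : Finset (Fin n), ‖f p.1 p.2‖ *
        Real.exp (-(2 * Real.pi * v₀ * (p.1 + ∑ i ∈ ε, (p.2 i : ℝ)))) :=
      Finset.single_le_sum (f := fun ε : Finset (Fin n) => ‖f p.1 p.2‖ *
        Real.exp (-(2 * Real.pi * v₀ * (p.1 + ∑ i ∈ ε, (p.2 i : ℝ))))) (fun ε _ => by positivity)
        (Finset.mem_univ _)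
    refine le_trans ?_ (mul_le_mul_of_nonneg_left h5 (Real.exp_nonneg _))
    rw [← mul_assoc, mul_comm (Real.exp _) ‖f p.1 p.2‖, mul_assoc ‖f p.1 p.2‖, ← Real.exp_add]
    apply mul_le_mul_of_nonneg_left _ (norm_nonneg _)
    apply Real.exp_le_exp.2
    set S := ∑ i, (p.2 i : ℝ) * t i with hS
    set S' := ∑ i ∈ univ.filter (fun i => p.2 i < 0), (p.2 i : ℝ) with hS'
    set Q := bf A t t with hQ
    have h6 : 0 ≤ (τ.im - v₀) * (2 * ((p.1 : ℝ) + S) + Q + κ) :=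
      mul_nonneg (by linarith) (by linarith)
    have h7 : 0 ≤ v₀ * (S - S') := mul_nonneg hv₀.le (by linarith)
    have h8 : 0 ≤ v₀ * Q := mul_nonneg hv₀.le h3
    have h9 : 0 ≤ Real.pi * ((τ.im - v₀) * (2 * ((p.1 : ℝ) + S) + Q + κ) + 2 * (v₀ * (S - S')) +
        v₀ * Q) := by positivity
    nlinarith
  have hsum1 := (summable_f h τ (fun i => (x i : ℂ) + t i * τ))
  have h2 : ‖φ τ (fun i => (x i : ℂ) + t i * τ)‖ ≤ ∑' p : ℕ × (Fin n → ℤ),
      ‖f p.1 p.2 * cexp (2 * Real.pi * I * (p.1 * τ + ∑ i, (p.2 i : ℂ) * ((x i : ℂ) + t i * τ)))‖ := by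
    rw [← h1.tsum_eq]
    exact norm_tsum_le_tsum_norm hsum1
  have hsum2 : Summable (fun p : ℕ × (Fin n → ℤ) => ∑ ε : Finset (Fin n), ‖f p.1 p.2‖ *
        Real.exp (-(2 * Real.pi * v₀ * (p.1 + ∑ i ∈ ε, (p.2 i : ℝ))))) :=
    summable_sum fun ε _ => summable_CC h v₀ hv₀ ε
  calc ‖φ τ (fun i => (x i : ℂ) + t i * τ)‖ * Real.exp (-(Real.pi * τ.im * bf A t t))
      ≤ (∑' p : ℕ × (Fin n → ℤ), ‖f p.1 p.2 *
        cexp (2 * Real.pi * I * (p.1 * τ + ∑ i, (p.2 i : ℂ) * ((x i : ℂ) + t i * τ)))‖) *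
        Real.exp (-(Real.pi * τ.im * bf A t t)) := mul_le_mul_of_nonneg_right h2 (Real.exp_nonneg _)
    _ ≤ Real.exp (Real.pi * κ * (τ.im - v₀)) * ∑' p : ℕ × (Fin n → ℤ), ∑ ε : Finset (Fin n),
        ‖f p.1 p.2‖ * Real.exp (-(2 * Real.pi * v₀ * (p.1 + ∑ i ∈ ε, (p.2 i : ℝ)))) := by
        rw [← tsum_mul_right, ← tsum_mul_left]
        exact Summable.tsum_le_tsum hle (hsum1.mul_right _) (hsum2.mul_left _)
    _ = _ := by
        unfold CC
        rw [Summable.tsum_finsetSum]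
        intro ε _
        exact summable_CC h v₀ hv₀ ε


/-- the lower bound for one term -/
lemma aa_norm (hA : A.IsSymm) (h : JF A k φ f) (τ : ℍ) (t : Fin n → ℝ) (m l : Fin n → ℤ) :
    ‖aa A f τ t (m + Al A l)‖ = ‖FF f m τ‖ * Real.exp (-(2 * Real.pi * τ.im *
      ((∑ i, (m i : ℝ) * (t i + l i)) + bf A (fun i => t i + l i) (fun i => t i + l i) / 2))) := by
  unfold aa
  rw [norm_mul, norm_mul, norm_gauss, FF_shift hA h, norm_mul, mul_assoc, mul_assoc]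
  congr 1
  have hre : ∀ r : ℝ, ‖cexp (2 * Real.pi * I * τ * (r : ℂ))‖ = Real.exp (-(2 * Real.pi * τ.im * r)) := by
    intro r
    rw [Complex.norm_exp]
    congr 1
    have e : (2 * Real.pi * I * τ * (r : ℂ) : ℂ) = ((2 * Real.pi * r : ℝ) : ℂ) * (I * τ) := by
      push_cast
      ring
    rw [e, Complex.re_ofReal_mul]
    have e2 : (I * (τ : ℂ)).re = -τ.im := by
      rw [Complex.mul_re, Complex.I_re, Complex.I_im]
      simp
    rw [e2]
    ring
  have e1 : (∑ i, (m i : ℂ) * (l i : ℂ)) + (bf A (fun i => (l i : ℝ)) (fun i => (l i : ℝ)) : ℂ) / 2 =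
      (((∑ i, (m i : ℝ) * (l i : ℝ)) + bf A (fun i => (l i : ℝ)) (fun i => (l i : ℝ)) / 2 : ℝ) : ℂ) := by
    push_cast
    rfl
  have e2 : ∑ i, (((m + Al A l) i : ℤ) : ℂ) * (t i : ℂ) =
      ((∑ i, (((m + Al A l) i : ℤ) : ℝ) * t i : ℝ) : ℂ) := by
    push_cast
    rfl
  rw [e1, e2, hre, hre, ← Real.exp_add, ← Real.exp_add]
  congr 1
  have e3 : ∑ i, (((m + Al A l) i : ℤ) : ℝ) * t i =
      (∑ i, (m i : ℝ) * t i) + bf A (fun i => (l i : ℝ)) t := by
    rw [← bf_Al hA, ← Finset.sum_add_distrib]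
    refine Finset.sum_congr rfl fun i _ => ?_
    simp only [Pi.add_apply]
    push_cast
    ring
  have e4 : bf A (fun i => t i + l i) (fun i => t i + l i) =
      bf A t t + 2 * bf A (fun i => (l i : ℝ)) t + bf A (fun i => (l i : ℝ)) (fun i => (l i : ℝ)) :=
    bf_add_self A hA t (fun i => (l i : ℝ))
  have e5 : ∑ i, (m i : ℝ) * (t i + l i) = (∑ i, (m i : ℝ) * t i) + ∑ i, (m i : ℝ) * (l i : ℝ) := by
    rw [← Finset.sum_add_distrib]
    refine Finset.sum_congr rfl fun i _ => ?_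
    ring
  rw [e3, e4, e5]
  ring

/-- the lower bound for the mean square -/
lemma lower (hA : A.IsSymm) (hinj : ∀ l : Fin n → ℤ, Al A l = 0 → l = 0) (h : JF A k φ f) (m : Fin n → ℤ) :
    ∃ c : ℝ, 0 < c ∧ ∀ (τ : ℍ) (M : ℕ), τ.im * M ^ 2 ≤ 1 → 1 ≤ M → ∀ t : Fin n → ℝ,
      (∀ i, 0 ≤ t i ∧ t i ≤ 1) →
      c * (M : ℝ) ^ n * ‖FF f m τ‖ ^ 2 ≤ ∫ y : UnitAddTorus (Fin n), ‖g A φ τ (rep y) t‖ ^ 2
        ∂(Measure.pi fun _ => AddCircle.haarAddCircle) := by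
  classical
  set W : ℝ := (∑ i, |(m i : ℝ)|) + ∑ i, ∑ j, |(A i j : ℝ)| with hW
  refine ⟨Real.exp (-(4 * Real.pi * W)), Real.exp_pos _, fun τ M hM hM1 t ht => ?_⟩
  set box : Finset (Fin n → ℤ) := Fintype.piFinset (fun _ : Fin n => (Finset.range M).image (fun a : ℕ => (a : ℤ)))
    with hbox
  have hboxc : box.card = M ^ n := by
    rw [hbox, Fintype.card_piFinset_const, Finset.card_image_of_injective _ Nat.cast_injective,
      Finset.card_range]
  have hinj' : Function.Injective (fun l : Fin n → ℤ => m + Al A l) := by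
    intro l l' hll
    have h1 : Al A l = Al A l' := add_left_cancel hll
    have h2 : Al A (l - l') = 0 := by
      ext i
      have h3 := congrFun h1 i
      unfold Al at h3 ⊢
      simp only [Pi.sub_apply, Pi.zero_apply, mul_sub, Finset.sum_sub_distrib]
      linarith
    have h3 := hinj _ h2
    exact sub_eq_zero.1 h3
  have h1 := bessel (d := Fin n) (aa A f τ t) (summable_aa h τ t) (fun y => g A φ τ (rep y) t)
    (hasSum_aa h τ t) (box.image (fun l => m + Al A l))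
  rw [Finset.sum_image (fun a _ b _ hab => hinj' hab)] at h1
  refine le_trans ?_ h1
  have hv := τ.im_pos
  have hM0 : (1 : ℝ) ≤ M := by exact_mod_cast hM1
  have h2 : ∀ l ∈ box, Real.exp (-(4 * Real.pi * W)) * ‖FF f m τ‖ ^ 2 ≤
      ‖aa A f τ t (m + Al A l)‖ ^ 2 := by
    intro l hl
    rw [aa_norm hA h, mul_pow, mul_comm, ← Real.exp_nat_mul]
    apply mul_le_mul_of_nonneg_left _ (by positivity)
    apply Real.exp_le_exp.2
    have hs : ∀ i, 0 ≤ t i + l i ∧ t i + l i ≤ M := by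
      intro i
      rw [hbox, Fintype.mem_piFinset] at hl
      have h3 := hl i
      rw [Finset.mem_image] at h3
      obtain ⟨a, ha, hal⟩ := h3
      rw [Finset.mem_range] at ha
      have h4 : (a : ℝ) + 1 ≤ M := by exact_mod_cast ha
      have h5 : ((l i : ℤ) : ℝ) = a := by
        rw [← hal]
        simp
      have h6 : (0 : ℝ) ≤ a := Nat.cast_nonneg a
      rw [h5]
      obtain ⟨h7, h8⟩ := ht i
      exact ⟨by linarith, by linarith⟩
    have h3 : ∑ i, (m i : ℝ) * (t i + l i) ≤ M * ∑ i, |(m i : ℝ)| := by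
      rw [Finset.mul_sum]
      apply Finset.sum_le_sum
      intro i _
      obtain ⟨h4, h5⟩ := hs i
      calc (m i : ℝ) * (t i + l i) ≤ |(m i : ℝ)| * (t i + l i) :=
            mul_le_mul_of_nonneg_right (le_abs_self _) h4
        _ ≤ |(m i : ℝ)| * M := mul_le_mul_of_nonneg_left h5 (abs_nonneg _)
        _ = _ := mul_comm _ _
    have h4 : bf A (fun i => t i + l i) (fun i => t i + l i) ≤ M ^ 2 * ∑ i, ∑ j, |(A i j : ℝ)| := by
      unfold bf
      rw [Finset.mul_sum]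
      apply Finset.sum_le_sum
      intro i _
      rw [Finset.mul_sum]
      apply Finset.sum_le_sum
      intro j _
      obtain ⟨h5, h6⟩ := hs i
      obtain ⟨h7, h8⟩ := hs j
      calc (A i j : ℝ) * (t i + l i) * (t j + l j) = (A i j : ℝ) * ((t i + l i) * (t j + l j)) := by ring
        _ ≤ |(A i j : ℝ)| * ((t i + l i) * (t j + l j)) :=
            mul_le_mul_of_nonneg_right (le_abs_self _) (mul_nonneg h5 h7)
        _ ≤ |(A i j : ℝ)| * (M * M) :=
            mul_le_mul_of_nonneg_left (mul_le_mul h6 h8 h7 (by linarith)) (abs_nonneg _)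
        _ = _ := by ring
    have h5 : 0 ≤ ∑ i, |(m i : ℝ)| := Finset.sum_nonneg fun _ _ => abs_nonneg _
    have h6 : 0 ≤ ∑ i, ∑ j, |(A i j : ℝ)| :=
      Finset.sum_nonneg fun _ _ => Finset.sum_nonneg fun _ _ => abs_nonneg _
    have h7 : τ.im * (∑ i, (m i : ℝ) * (t i + l i)) ≤ ∑ i, |(m i : ℝ)| := by
      calc τ.im * (∑ i, (m i : ℝ) * (t i + l i)) ≤ τ.im * (M * ∑ i, |(m i : ℝ)|) :=
            mul_le_mul_of_nonneg_left h3 hv.le
        _ = (τ.im * M) * ∑ i, |(m i : ℝ)| := by ring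
        _ ≤ 1 * ∑ i, |(m i : ℝ)| := by
            apply mul_le_mul_of_nonneg_right _ h5
            nlinarith [mul_nonneg hv.le (show (0 : ℝ) ≤ M by linarith)]
        _ = _ := one_mul _
    have h8 : τ.im * bf A (fun i => t i + l i) (fun i => t i + l i) ≤ ∑ i, ∑ j, |(A i j : ℝ)| := by
      calc τ.im * bf A (fun i => t i + l i) (fun i => t i + l i) ≤
            τ.im * (M ^ 2 * ∑ i, ∑ j, |(A i j : ℝ)|) := mul_le_mul_of_nonneg_left h4 hv.le
        _ = (τ.im * M ^ 2) * ∑ i, ∑ j, |(A i j : ℝ)| := by ring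
        _ ≤ 1 * ∑ i, ∑ j, |(A i j : ℝ)| := mul_le_mul_of_nonneg_right hM h6
        _ = _ := one_mul _
    have hpi := Real.pi_pos
    push_cast
    have h9 : 0 ≤ Real.pi * (W - (τ.im * (∑ i, (m i : ℝ) * (t i + l i)) +
        τ.im * bf A (fun i => t i + l i) (fun i => t i + l i) / 2)) := by
      apply mul_nonneg hpi.le
      rw [hW]
      linarith
    nlinarith
  calc Real.exp (-(4 * Real.pi * W)) * (M : ℝ) ^ n * ‖FF f m τ‖ ^ 2 =
        ∑ _l ∈ box, Real.exp (-(4 * Real.pi * W)) * ‖FF f m τ‖ ^ 2 := by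
        rw [Finset.sum_const, hboxc, nsmul_eq_mul]
        push_cast
        ring
    _ ≤ _ := Finset.sum_le_sum h2

end Pool.Agent.Q263.WJ
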