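import Mathlib

/-!
Weak Jacobi forms of lattice index: definitions.

A lattice of rank `n` is given by the Gram matrix `A` of a basis: it is `ℤⁿ` with the bilinear
form `(x, y) = ∑ A i j x i y j`, so that `L ⊗ ℂ = ℂⁿ`.
-/

set_option autoImplicit false

open Complex
open UpperHalfPlane hiding I
open scoped MatrixGroups

namespace Pool.Agent.Q263.WJ

variable {n : ℕ}

/-- The lattice with Gram matrix `A` is even and positive definite. -/
def EvenPosDef (A : Matrix (Fin n) (Fin n) ℤ) : Prop :=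
  A.IsSymm ∧ (∀ i, Even (A i i)) ∧
    ∀ s : Fin n → ℝ, s ≠ 0 → 0 < ∑ i, ∑ j, (A i j : ℝ) * s i * s j

/-- The lattice is not the orthogonal direct sum of two nonzero sublattices. -/
def Irred (A : Matrix (Fin n) (Fin n) ℤ) : Prop :=
  ∀ M₁ M₂ : AddSubgroup (Fin n → ℤ),
    (∀ x ∈ M₁, ∀ y ∈ M₂, ∑ i, ∑ j, A i j * x i * y j = 0) → M₁ ⊔ M₂ = ⊤ → M₁ = ⊥ ∨ M₂ = ⊥

/-- The dual lattice `L'`: all `v` in `L ⊗ ℝ` with `(x, v) ∈ ℤ` for all `x ∈ L`. -/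
def Dual (A : Matrix (Fin n) (Fin n) ℤ) : Set (Fin n → ℝ) :=
  {v | ∀ x : Fin n → ℤ, ∃ a : ℤ, ∑ i, ∑ j, (A i j : ℝ) * x i * v j = a}

/-- `L' = L`. -/
def Unimodular (A : Matrix (Fin n) (Fin n) ℤ) : Prop :=
  ∀ v ∈ Dual A, ∃ x : Fin n → ℤ, v = fun i => (x i : ℝ)

/-- The complex bilinear extension `(z, w)` of the form. -/
noncomputable def cform (A : Matrix (Fin n) (Fin n) ℤ) (z w : Fin n → ℂ) : ℂ :=
  ∑ i, ∑ j, (A i j : ℂ) * z i * w j

/-- `c τ + d` -/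
noncomputable def cd (γ : SL(2, ℤ)) (τ : ℍ) : ℂ := ((γ.1 1 0 : ℤ) : ℂ) * τ + ((γ.1 1 1 : ℤ) : ℂ)

/-- `φ` is a weak Jacobi form of weight `k` and index one for the lattice with Gram matrix `A`:
it is holomorphic, it satisfies the two transformation laws, and it has a Fourier expansion
`∑ f(j, ℓ) q ^ j ζ ^ ℓ` over `j ≥ 0` and `ℓ ∈ L'`; here the vectors `ℓ ∈ L'` are given by their
products `m i = (e i, ℓ) ∈ ℤ` with the basis vectors, so that `(ℓ, z) = ∑ m i z i`. -/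
structure WeakJacobi (A : Matrix (Fin n) (Fin n) ℤ) (k : ℤ) (φ : ℍ → (Fin n → ℂ) → ℂ) : Prop where
  holo : DifferentiableOn ℂ (fun p : ℂ × (Fin n → ℂ) => φ (UpperHalfPlane.ofComplex p.1) p.2)
    {p | 0 < p.1.im}
  modular : ∀ (γ : SL(2, ℤ)) (τ : ℍ) (z : Fin n → ℂ),
    φ (γ • τ) (fun i => z i / cd γ τ) =
      cd γ τ ^ k * cexp (Real.pi * I * ((γ.1 1 0 : ℤ) : ℂ) * cform A z z / cd γ τ) * φ τ z
  elliptic : ∀ (l m : Fin n → ℤ) (τ : ℍ) (z : Fin n → ℂ),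
    φ τ (fun i => z i + l i * τ + m i) =
      cexp (-(Real.pi * I * cform A (fun i => (l i : ℂ)) (fun i => (l i : ℂ)) * τ) -
        2 * Real.pi * I * cform A (fun i => (l i : ℂ)) z) * φ τ z
  fourier : ∃ f : ℕ → (Fin n → ℤ) → ℂ, ∀ (τ : ℍ) (z : Fin n → ℂ),
    HasSum (fun p : ℕ × (Fin n → ℤ) =>
      f p.1 p.2 * cexp (2 * Real.pi * I * (p.1 * τ + ∑ i, (p.2 i : ℂ) * z i))) (φ τ z)

/-- `φ i`, of weight `k i`, is a homogeneous basis of the graded module of weak Jacobi forms over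
the graded ring of modular forms for `SL(2, ℤ)`: every weak Jacobi form of weight `w` is in
exactly one way a finite sum `∑ g i * φ i` with modular forms `g i` of weight `w - k i`. -/
structure HomBasis (A : Matrix (Fin n) (Fin n) ℤ) {ι : Type} (k : ι → ℤ)
    (φ : ι → ℍ → (Fin n → ℂ) → ℂ) : Prop where
  mem : ∀ i, WeakJacobi A (k i) (φ i)
  basis : ∀ (w : ℤ) (ψ : ℍ → (Fin n → ℂ) → ℂ), WeakJacobi A w ψ →
    ∃! g : (i : ι) → ModularForm 𝒮ℒ (w - k i), {i | g i ≠ 0}.Finite ∧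
      ∀ τ z, ψ τ z = ∑ᶠ i, g i τ * φ i τ z

end Pool.Agent.Q263.WJ
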