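import Mathlib
import Pool.Agent.Q263.WJ.Bnd

/-!
The mean square over the torus and its invariance.
-/

set_option autoImplicit false

open MeasureTheory Finset Complex UnitAddTorus
open UpperHalfPlane hiding I
open scoped MatrixGroups

namespace Pool.Agent.Q263.WJ

noncomputable local instance : MeasureSpace UnitAddCircle := ⟨AddCircle.haarAddCircle⟩

local instance : Measure.IsAddHaarMeasure (volume : Measure UnitAddCircle) :=
  inferInstanceAs (Measure.IsAddHaarMeasure AddCircle.haarAddCircle)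

local instance : IsProbabilityMeasure (volume : Measure UnitAddCircle) :=
  inferInstanceAs (IsProbabilityMeasure AddCircle.haarAddCircle)

local instance : Measure.IsNegInvariant (volume : Measure UnitAddCircle) :=
  Measure.IsAddHaarMeasure.isNegInvariant_of_innerRegular AddCircle.haarAddCircle

variable {n : ℕ} {A : Matrix (Fin n) (Fin n) ℤ} {k : ℤ} {φ : ℍ → (Fin n → ℂ) → ℂ}
  {f : ℕ → (Fin n → ℤ) → ℂ}

/-- the mean square -/
noncomputable def NN (A : Matrix (Fin n) (Fin n) ℤ) (φ : ℍ → (Fin n → ℂ) → ℂ) (τ : ℍ) : ℝ :=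
  ∫ w : UnitAddTorus (Fin n), ∫ y : UnitAddTorus (Fin n), ‖g A φ τ (rep y) (rep w)‖ ^ 2

lemma cont_g (h : JF A k φ f) (τ : ℍ) :
    Continuous (fun p : (Fin n → ℝ) × (Fin n → ℝ) => ‖g A φ τ p.1 p.2‖ ^ 2) := by
  unfold g
  have h1 : Continuous (fun p : (Fin n → ℝ) × (Fin n → ℝ) =>
      φ τ (fun i => (p.1 i : ℂ) + p.2 i * τ)) := (h.cont τ).comp (by fun_prop)
  have h2 : Continuous (fun p : (Fin n → ℝ) × (Fin n → ℝ) => bf A p.2 p.2) := by
    unfold bf
    fun_prop
  exact (h1.mul (Complex.continuous_exp.comp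
    (continuous_const.mul (Complex.continuous_ofReal.comp h2)))).norm.pow 2

lemma meas_g (h : JF A k φ f) (τ : ℍ) :
    Measurable (fun p : UnitAddTorus (Fin n) × UnitAddTorus (Fin n) =>
      ‖g A φ τ (rep p.1) (rep p.2)‖ ^ 2) := by
  have h1 := (cont_g h τ).measurable
  have h2 : Measurable (fun p : UnitAddTorus (Fin n) × UnitAddTorus (Fin n) =>
      ((rep p.1, rep p.2) : (Fin n → ℝ) × (Fin n → ℝ))) :=
    Measurable.prodMk (measurable_rep.comp measurable_fst) (measurable_rep.comp measurable_snd)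
  exact Measurable.comp (g := fun p : (Fin n → ℝ) × (Fin n → ℝ) => ‖g A φ τ p.1 p.2‖ ^ 2)
    (f := fun p : UnitAddTorus (Fin n) × UnitAddTorus (Fin n) => (rep p.1, rep p.2)) h1 h2

section
variable (hA : A.IsSymm) (heven : ∀ i, Even (A i i)) (hpos : ∀ s : Fin n → ℝ, 0 ≤ bf A s s)
    (h : JF A k φ f) (κ : ℝ) (hκ : Cov A κ)
include hA heven hpos h hκ

lemma g_sq_le (v₀ : ℝ) (hv₀ : 0 < v₀) (τ : ℍ) (hτ : v₀ ≤ τ.im) (y w : UnitAddTorus (Fin n)) :
    ‖g A φ τ (rep y) (rep w)‖ ^ 2 ≤ (Real.exp (Real.pi * κ * (τ.im - v₀)) * CC f v₀) ^ 2 := by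
  apply pow_le_pow_left₀ (norm_nonneg _)
  exact g_le hA heven hpos h κ hκ v₀ hv₀ τ hτ _ _ (fun i => ⟨(rep_mem w i).1.le, (rep_mem w i).2⟩)

lemma integrable_g (τ : ℍ) :
    Integrable (fun p : UnitAddTorus (Fin n) × UnitAddTorus (Fin n) =>
      ‖g A φ τ (rep p.1) (rep p.2)‖ ^ 2) (volume.prod volume) := by
  refine Integrable.mono' (integrable_const ((Real.exp (Real.pi * κ * (τ.im - τ.im)) *
    CC f τ.im) ^ 2)) (meas_g h τ).aestronglyMeasurable (Filter.Eventually.of_forall fun p => ?_)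
  rw [Real.norm_of_nonneg (by positivity)]
  exact g_sq_le hA heven hpos h κ hκ τ.im τ.im_pos τ le_rfl p.1 p.2

lemma NN_swap (τ : ℍ) : NN A φ τ = ∫ y : UnitAddTorus (Fin n), ∫ w : UnitAddTorus (Fin n),
    ‖g A φ τ (rep y) (rep w)‖ ^ 2 := by
  unfold NN
  rw [MeasureTheory.integral_integral_swap]
  exact (integrable_g hA heven hpos h κ hκ τ).swap

lemma NN_T (τ : ℍ) : NN A φ (ModularGroup.T • τ) = NN A φ τ := by
  unfold NN
  refine integral_congr_ae (Filter.Eventually.of_forall fun w => ?_)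
  simp only
  have h1 : ∀ y : UnitAddTorus (Fin n), ‖g A φ (ModularGroup.T • τ) (rep y) (rep w)‖ ^ 2 =
      (fun y => ‖g A φ τ (rep y) (rep w)‖ ^ 2) (y + w) := by
    intro y
    simp only
    rw [g_T h]
    obtain ⟨m, hm⟩ := exists_int (rep y + rep w) (rep (y + w)) (fun i => by
      rw [rep_coe]
      simp only [Pi.add_apply]
      rw [AddCircle.coe_add, rep_coe, rep_coe])
    have e : rep (y + w) = fun i => (rep y + rep w) i + m i := funext hm
    rw [e, g_x h]
  rw [integral_congr_ae (Filter.Eventually.of_forall h1)]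
  exact integral_add_right_eq_self (fun y => ‖g A φ τ (rep y) (rep w)‖ ^ 2) w

lemma NN_S (τ : ℍ) : NN A φ (ModularGroup.S • τ) = (‖(τ : ℂ)‖ ^ k) ^ 2 * NN A φ τ := by
  rw [NN_swap hA heven hpos h κ hκ τ]
  unfold NN
  have h1 : ∀ w y : UnitAddTorus (Fin n), ‖g A φ (ModularGroup.S • τ) (rep y) (rep w)‖ ^ 2 =
      (‖(τ : ℂ)‖ ^ k) ^ 2 * ‖g A φ τ (rep (-w)) (rep y)‖ ^ 2 := by
    intro w y
    obtain ⟨m, hm⟩ := exists_int (fun i => -rep w i) (rep (-w)) (fun i => by
      rw [rep_coe]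
      simp only [Pi.neg_apply]
      rw [AddCircle.coe_neg, rep_coe])
    have e : rep (-w) = fun i => (fun i => -rep w i) i + m i := funext hm
    have h2 := g_S h τ (fun i => -rep w i) (rep y)
    simp only [neg_neg] at h2
    rw [e, g_x h, h2]
    ring
  simp only [h1]
  simp only [MeasureTheory.integral_const_mul]
  congr 1
  exact integral_neg_eq_self (fun w : UnitAddTorus (Fin n) => ∫ y : UnitAddTorus (Fin n),
    ‖g A φ τ (rep w) (rep y)‖ ^ 2) volume

lemma NN_le (v₀ : ℝ) (hv₀ : 0 < v₀) (τ : ℍ) (hτ : v₀ ≤ τ.im) :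
    NN A φ τ ≤ (Real.exp (Real.pi * κ * (τ.im - v₀)) * CC f v₀) ^ 2 := by
  unfold NN
  have h1 : ∀ w : UnitAddTorus (Fin n), ∫ y : UnitAddTorus (Fin n), ‖g A φ τ (rep y) (rep w)‖ ^ 2 ≤
      (Real.exp (Real.pi * κ * (τ.im - v₀)) * CC f v₀) ^ 2 := by
    intro w
    have h2 := integral_mono_of_nonneg (μ := (volume : Measure (UnitAddTorus (Fin n))))
      (f := fun y => ‖g A φ τ (rep y) (rep w)‖ ^ 2)
      (g := fun _ => (Real.exp (Real.pi * κ * (τ.im - v₀)) * CC f v₀) ^ 2)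
      (Filter.Eventually.of_forall fun y => by positivity) (integrable_const _)
      (Filter.Eventually.of_forall fun y => g_sq_le hA heven hpos h κ hκ v₀ hv₀ τ hτ y w)
    refine h2.trans ?_
    simp
  have h2 := integral_mono_of_nonneg (μ := (volume : Measure (UnitAddTorus (Fin n))))
      (f := fun w => ∫ y : UnitAddTorus (Fin n), ‖g A φ τ (rep y) (rep w)‖ ^ 2)
      (g := fun _ => (Real.exp (Real.pi * κ * (τ.im - v₀)) * CC f v₀) ^ 2)
      (Filter.Eventually.of_forall fun y => integral_nonneg fun _ => by positivity)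
      (integrable_const _) (Filter.Eventually.of_forall h1)
  refine h2.trans ?_
  simp

lemma le_NN (τ : ℍ) (C : ℝ) (hC : ∀ t : Fin n → ℝ, (∀ i, 0 ≤ t i ∧ t i ≤ 1) →
    C ≤ ∫ y : UnitAddTorus (Fin n), ‖g A φ τ (rep y) t‖ ^ 2) : C ≤ NN A φ τ := by
  unfold NN
  have h1 : Integrable (fun w : UnitAddTorus (Fin n) => ∫ y : UnitAddTorus (Fin n),
      ‖g A φ τ (rep y) (rep w)‖ ^ 2) :=
    (integrable_g hA heven hpos h κ hκ τ).integral_prod_right
  have h2 := integral_mono (integrable_const C) h1 (fun w => hC (rep w)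
    (fun i => ⟨(rep_mem w i).1.le, (rep_mem w i).2⟩))
  refine le_trans ?_ h2
  simp

end

/-- invariance under the generators -/
lemma inv_all (F : ℍ → ℝ) (hS : ∀ τ, F (ModularGroup.S • τ) = F τ)
    (hT : ∀ τ, F (ModularGroup.T • τ) = F τ) (γ : SL(2, ℤ)) : ∀ τ, F (γ • τ) = F τ := by
  have hγ : γ ∈ Subgroup.closure {ModularGroup.S, ModularGroup.T} := by
    rw [SpecialLinearGroup.SL2Z_generators]
    exact Subgroup.mem_top _
  induction hγ using Subgroup.closure_induction with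
  | mem x hx =>
    rcases hx with rfl | hx
    · exact hS
    · rw [Set.mem_singleton_iff] at hx
      subst hx
      exact hT
  | one => intro τ; rw [one_smul]
  | mul x y _ _ hx hy => intro τ; rw [mul_smul, hx, hy]
  | inv x _ hx => intro τ; rw [← hx (x⁻¹ • τ), smul_inv_smul]

end Pool.Agent.Q263.WJ
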