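import Mathlib
import Pool.Agent.Q263.WJ.Inv

/-!
Vanishing of weak Jacobi forms of small weight.
-/

set_option autoImplicit false

open MeasureTheory Finset Complex UnitAddTorus Filter Topology
open UpperHalfPlane hiding I
open scoped MatrixGroups

namespace Pool.Agent.Q263.WJ


lemma normSq_S (τ : ℍ) : (ModularGroup.S • τ : ℍ).im = τ.im / ‖(τ : ℂ)‖ ^ 2 := by
  have h1 : (ModularGroup.S • τ : ℍ).im = ((ModularGroup.S • τ : ℍ) : ℂ).im := rfl
  rw [h1, coe_S, neg_div, Complex.neg_im, one_div, Complex.inv_im, Complex.normSq_eq_norm_sq]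
  have h2 : (τ : ℂ).im = τ.im := rfl
  rw [h2]
  ring

lemma im_T (τ : ℍ) : (ModularGroup.T • τ : ℍ).im = τ.im := by
  have h1 : (ModularGroup.T • τ : ℍ).im = ((ModularGroup.T • τ : ℍ) : ℂ).im := rfl
  rw [h1, coe_T]
  simp

lemma delta_S (τ : ℍ) : ‖ModularForm.discriminant (ModularGroup.S • τ)‖ = ‖(τ : ℂ)‖ ^ 12 * ‖ModularForm.discriminant τ‖ := by
  have h1 := congrFun ModularForm.discriminant_S_invariant τ
  rw [ModularForm.SL_slash_apply] at h1
  have h2 : denom (ModularGroup.S : SL(2, ℤ)) τ = (τ : ℂ) := by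
    exact ModularGroup.denom_S τ
  have hτ : (τ : ℂ) ≠ 0 := UpperHalfPlane.ne_zero τ
  rw [h2] at h1
  rw [← h1, norm_mul, norm_zpow]
  have hn : ‖(τ : ℂ)‖ ≠ 0 := norm_ne_zero_iff.2 hτ
  have e : ‖(τ : ℂ)‖ ^ (-12 : ℤ) = (‖(τ : ℂ)‖ ^ 12)⁻¹ := by
    rw [zpow_neg]
    rfl
  rw [e]
  field_simp

lemma delta_T (τ : ℍ) : ‖ModularForm.discriminant (ModularGroup.T • τ)‖ = ‖ModularForm.discriminant τ‖ := by
  have h1 := congrFun ModularForm.discriminant_T_invariant τ
  rw [ModularForm.SL_slash_apply] at h1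
  have h2 : denom (ModularGroup.T : SL(2, ℤ)) τ = 1 := by
    rw [ModularGroup.denom_apply]
    simp [ModularGroup.T]
  rw [h2, one_zpow, mul_one] at h1
  rw [h1]

/-- invariance of the discriminant -/
lemma delta_inv (γ : SL(2, ℤ)) (τ : ℍ) :
    ‖ModularForm.discriminant (γ • τ)‖ * (γ • τ : ℍ).im ^ 6 = ‖ModularForm.discriminant τ‖ * τ.im ^ 6 := by
  refine inv_all (fun τ => ‖ModularForm.discriminant τ‖ * τ.im ^ 6) (fun τ => ?_) (fun τ => ?_) γ τ
  · rw [delta_S, normSq_S, div_pow]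
    have hn : ‖(τ : ℂ)‖ ≠ 0 := norm_ne_zero_iff.2 (UpperHalfPlane.ne_zero τ)
    field_simp
  · rw [delta_T, im_T]

/-- bound for the discriminant in the fundamental domain -/
lemma delta_le : ∃ C : ℝ, 0 < C ∧ ∀ τ ∈ ModularGroup.fd, ‖ModularForm.discriminant τ‖ ≤ C * Real.exp (-(2 * Real.pi * τ.im)) := by
  have hcont : Continuous (fun τ : ℍ => ModularForm.discriminant τ) := by
    have := (ModularFormClass.holo CuspForm.discriminant).continuous
    exact this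
  have h1 := CuspFormClass.exp_decay_atImInfty (h := 1) CuspForm.discriminant one_pos
    one_mem_strictPeriods_SL
  have h2 : (fun τ : ℍ => Real.exp (2 * Real.pi * τ.im) • ModularForm.discriminant τ) =O[atImInfty]
      (fun τ : ℍ => τ.im ^ (0 : ℝ)) := by
    have h3 := (Asymptotics.isBigO_refl (fun τ : ℍ => Real.exp (2 * Real.pi * τ.im)) atImInfty).smul h1
    refine h3.trans ?_
    refine Asymptotics.IsBigO.of_bound 1 (Eventually.of_forall fun τ => ?_)
    rw [smul_eq_mul, ← Real.exp_add, Real.rpow_zero]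
    have e : 2 * Real.pi * τ.im + -2 * Real.pi * τ.im / 1 = 0 := by ring
    rw [e]
    simp
  obtain ⟨F, hF⟩ := ModularGroup.exists_bound_fundamental_domain_of_isBigO
    (f := fun τ : ℍ => Real.exp (2 * Real.pi * τ.im) • ModularForm.discriminant τ)
    ((Real.continuous_exp.comp (continuous_const.mul UpperHalfPlane.continuous_im)).smul hcont) h2
  refine ⟨|F| + 1, by positivity, fun τ hτ => ?_⟩
  have h3 := hF τ hτ
  rw [Real.rpow_zero, mul_one, norm_smul, Real.norm_of_nonneg (Real.exp_nonneg _)] at h3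
  have h4 : ‖ModularForm.discriminant τ‖ = Real.exp (-(2 * Real.pi * τ.im)) * (Real.exp (2 * Real.pi * τ.im) * ‖ModularForm.discriminant τ‖) := by
    rw [← mul_assoc, ← Real.exp_add, neg_add_cancel, Real.exp_zero, one_mul]
  rw [h4, mul_comm]
  apply mul_le_mul_of_nonneg_right _ (Real.exp_nonneg _)
  have := le_abs_self F
  linarith

/-- polynomials against exponentials -/
lemma poly_exp (N : ℕ) (c : ℝ) (hc : 0 < c) : ∃ C : ℝ, 0 < C ∧ ∀ v : ℝ, 0 ≤ v →
    (1 + v) ^ N * Real.exp (-(c * v)) ≤ C := by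
  refine ⟨(N.factorial : ℝ) * c⁻¹ ^ N * Real.exp c, by positivity, fun v hv => ?_⟩
  have h1 := Real.pow_div_factorial_le_exp (c * (1 + v)) (by positivity) N
  rw [div_le_iff₀ (by positivity), mul_pow] at h1
  have h2 : (1 + v) ^ N ≤ c⁻¹ ^ N * (Real.exp (c * (1 + v)) * N.factorial) := by
    calc (1 + v) ^ N = c⁻¹ ^ N * (c ^ N * (1 + v) ^ N) := by
          rw [← mul_assoc, ← mul_pow, inv_mul_cancel₀ hc.ne', one_pow, one_mul]
      _ ≤ _ := mul_le_mul_of_nonneg_left h1 (by positivity)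
  calc (1 + v) ^ N * Real.exp (-(c * v)) ≤
        c⁻¹ ^ N * (Real.exp (c * (1 + v)) * N.factorial) * Real.exp (-(c * v)) :=
        mul_le_mul_of_nonneg_right h2 (Real.exp_nonneg _)
    _ = (N.factorial : ℝ) * c⁻¹ ^ N * (Real.exp (c * (1 + v)) * Real.exp (-(c * v))) := by ring
    _ = _ := by
        rw [← Real.exp_add]
        congr 2
        ring

lemma zpow_le (k : ℤ) (v : ℝ) (hv : 1 / 2 ≤ v) : v ^ k ≤ 2 ^ k.natAbs * (1 + v) ^ k.natAbs := by
  have hv0 : 0 < v := by linarith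
  rcases Int.natAbs_eq k with h | h
  · rw [h]
    simp only [Int.natAbs_natCast, zpow_natCast]
    have h1 : (1 : ℝ) ≤ 2 ^ k.natAbs := one_le_pow₀ (by norm_num)
    have h2 : v ^ k.natAbs ≤ (1 + v) ^ k.natAbs := pow_le_pow_left₀ hv0.le (by linarith) _
    calc v ^ k.natAbs ≤ 1 * (1 + v) ^ k.natAbs := by linarith
      _ ≤ _ := mul_le_mul_of_nonneg_right h1 (by positivity)
  · rw [h]
    simp only [Int.natAbs_neg, Int.natAbs_natCast, zpow_neg, zpow_natCast]
    rw [← inv_pow]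
    have h1 : v⁻¹ ≤ 2 := by
      rw [inv_le_comm₀ hv0 (by norm_num)]
      linarith
    have h2 : v⁻¹ ^ k.natAbs ≤ 2 ^ k.natAbs := pow_le_pow_left₀ (by positivity) h1 _
    have h3 : (1 : ℝ) ≤ (1 + v) ^ k.natAbs := one_le_pow₀ (by linarith)
    calc v⁻¹ ^ k.natAbs ≤ 2 ^ k.natAbs * 1 := by linarith
      _ ≤ _ := mul_le_mul_of_nonneg_left h3 (by positivity)

section
variable {n : ℕ} {A : Matrix (Fin n) (Fin n) ℤ} {k : ℤ} {φ : ℍ → (Fin n → ℂ) → ℂ}
  {f : ℕ → (Fin n → ℤ) → ℂ}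

variable (hA : A.IsSymm) (heven : ∀ i, Even (A i i)) (hpos : ∀ s : Fin n → ℝ, 0 ≤ bf A s s)
    (h : JF A k φ f) (κ : ℝ) (hκ : Cov A κ)
include hA heven hpos h hκ

lemma NN_inv (γ : SL(2, ℤ)) (τ : ℍ) :
    NN A φ (γ • τ) * (γ • τ : ℍ).im ^ k = NN A φ τ * τ.im ^ k := by
  refine inv_all (fun τ => NN A φ τ * τ.im ^ k) (fun τ => ?_) (fun τ => ?_) γ τ
  · rw [NN_S hA heven hpos h κ hκ, normSq_S, div_zpow]
    have hn : ‖(τ : ℂ)‖ ≠ 0 := norm_ne_zero_iff.2 (UpperHalfPlane.ne_zero τ)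
    have hn2 : (‖(τ : ℂ)‖ ^ k) ≠ 0 := zpow_ne_zero _ hn
    have e : (‖(τ : ℂ)‖ ^ 2) ^ k = (‖(τ : ℂ)‖ ^ k) ^ 2 := by
      rw [← zpow_natCast, ← zpow_natCast, ← zpow_mul, ← zpow_mul, mul_comm]
    rw [e]
    field_simp
  · rw [NN_T hA heven hpos h κ hκ, im_T]

omit hA heven hpos h hκ in
lemma NN_nonneg (τ : ℍ) : 0 ≤ NN A φ τ :=
  integral_nonneg fun _ => integral_nonneg fun _ => by positivity

/-- the invariant is bounded -/
lemma bounded (a b : ℕ) (hab : κ * b < a) : ∃ C : ℝ, 0 < C ∧ ∀ τ : ℍ,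
    (NN A φ τ * τ.im ^ k) ^ b * (‖ModularForm.discriminant τ‖ * τ.im ^ 6) ^ a ≤ C := by
  obtain ⟨C2, hC2, hDel⟩ := delta_le
  obtain ⟨C3, hC3, hpe⟩ := poly_exp (k.natAbs * b + 6 * a) (2 * Real.pi * (a - κ * b))
    (by have := Real.pi_pos; apply mul_pos (by positivity); linarith)
  set K := (Real.exp (-(Real.pi * κ * (1 / 2))) * CC f (1 / 2)) ^ 2 with hK
  have hK0 : 0 ≤ K := by positivity
  refine ⟨K ^ b * (2 ^ k.natAbs) ^ b * C2 ^ a * C3 + 1, by positivity, fun τ => ?_⟩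
  obtain ⟨γ, hγ⟩ := ModularGroup.exists_smul_mem_fd τ
  rw [← NN_inv hA heven hpos h κ hκ γ τ, ← delta_inv γ τ]
  set τ' := γ • τ with hτ'
  have hv : 1 / 2 ≤ τ'.im := by
    have h1 := ModularGroup.three_le_four_mul_im_sq_of_mem_fd hγ
    have h2 := τ'.im_pos
    nlinarith
  obtain ⟨v, hvv⟩ : ∃ v : ℝ, v = τ'.im := ⟨_, rfl⟩
  rw [← hvv] at hv ⊢
  have hv0 : 0 < v := by linarith
  have h1 : NN A φ τ' ≤ K * Real.exp (2 * Real.pi * κ * v) := by
    have h2 := NN_le hA heven hpos h κ hκ (1 / 2) (by norm_num) τ' (by rw [← hvv]; exact hv)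
    refine h2.trans (le_of_eq ?_)
    rw [hK, ← hvv, mul_pow, mul_pow, ← Real.exp_nat_mul, ← Real.exp_nat_mul]
    have e : Real.exp ((2 : ℕ) * (Real.pi * κ * (v - 1 / 2))) =
        Real.exp ((2 : ℕ) * (-(Real.pi * κ * (1 / 2)))) * Real.exp (2 * Real.pi * κ * v) := by
      rw [← Real.exp_add]
      congr 1
      push_cast
      ring
    rw [e]
    ring
  have h2 := hDel τ' hγ
  rw [← hvv] at h2
  have h3 := zpow_le k v hv
  have h4 : NN A φ τ' * v ^ k ≤ K * Real.exp (2 * Real.pi * κ * v) * (2 ^ k.natAbs * (1 + v) ^ k.natAbs) :=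
    mul_le_mul h1 h3 (by positivity) (by positivity)
  have h5 : ‖ModularForm.discriminant τ'‖ * v ^ 6 ≤ C2 * Real.exp (-(2 * Real.pi * v)) * (1 + v) ^ 6 :=
    mul_le_mul h2 (pow_le_pow_left₀ hv0.le (by linarith) _) (by positivity) (by positivity)
  have h6 : (NN A φ τ' * v ^ k) ^ b ≤
      (K * Real.exp (2 * Real.pi * κ * v) * (2 ^ k.natAbs * (1 + v) ^ k.natAbs)) ^ b :=
    pow_le_pow_left₀ (mul_nonneg (NN_nonneg τ') (by positivity)) h4 b
  have h7 : (‖ModularForm.discriminant τ'‖ * v ^ 6) ^ a ≤ (C2 * Real.exp (-(2 * Real.pi * v)) * (1 + v) ^ 6) ^ a :=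
    pow_le_pow_left₀ (by positivity) h5 a
  have h8 := mul_le_mul h6 h7 (by positivity) (by positivity)
  refine h8.trans ?_
  have e : (K * Real.exp (2 * Real.pi * κ * v) * (2 ^ k.natAbs * (1 + v) ^ k.natAbs)) ^ b *
      (C2 * Real.exp (-(2 * Real.pi * v)) * (1 + v) ^ 6) ^ a =
      K ^ b * (2 ^ k.natAbs) ^ b * C2 ^ a * ((1 + v) ^ (k.natAbs * b + 6 * a) *
        Real.exp (-(2 * Real.pi * (a - κ * b) * v))) := by
    have e1 : Real.exp (-(2 * Real.pi * (a - κ * b) * v)) =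
        Real.exp (2 * Real.pi * κ * v) ^ b * Real.exp (-(2 * Real.pi * v)) ^ a := by
      rw [← Real.exp_nat_mul, ← Real.exp_nat_mul, ← Real.exp_add]
      congr 1
      ring
    rw [e1]
    generalize 1 + v = x
    ring
  rw [e]
  have h9 := mul_le_mul_of_nonneg_left (hpe v hv0.le)
    (show 0 ≤ K ^ b * (2 ^ k.natAbs) ^ b * C2 ^ a by positivity)
  linarith

/-- decay of the coefficient functions near the real line -/
lemma decay (hinj : ∀ l : Fin n → ℤ, Al A l = 0 → l = 0) (a b : ℕ) (hab : κ * b < a)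
    (hE : 2 * k * b + 12 * a < n * b) (m : Fin n → ℤ) :
    ∃ C : ℝ, 0 < C ∧ ∀ τ : ℍ, τ.im ≤ 1 → (‖FF f m τ‖ ^ (2 * b) * ‖ModularForm.discriminant τ‖ ^ a) ^ 2 ≤ C * τ.im := by
  obtain ⟨C, hC, hbd⟩ := bounded hA heven hpos h κ hκ a b hab
  obtain ⟨c, hc, hlow⟩ := lower hA hinj h m
  refine ⟨C ^ 2 * (4 ^ n / c ^ 2) ^ b, by positivity, fun τ hτ => ?_⟩
  have hv0 := τ.im_pos
  obtain ⟨v, hv⟩ : ∃ v : ℝ, v = τ.im := ⟨_, rfl⟩
  rw [← hv] at hv0 hτ ⊢
  set M := ⌊1 / √v⌋₊ with hM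
  have hs0 : 0 < √v := Real.sqrt_pos.2 hv0
  have hs1 : √v ≤ 1 := Real.sqrt_le_one.2 hτ
  have hss : √v * √v = v := Real.mul_self_sqrt hv0.le
  have h1s : 1 ≤ 1 / √v := by rw [le_div_iff₀ hs0]; linarith
  have hM1 : 1 ≤ M := Nat.one_le_iff_ne_zero.2 (by
    have := (Nat.floor_pos).2 h1s
    omega)
  have hMle : (M : ℝ) ≤ 1 / √v := Nat.floor_le (by positivity)
  have hMge : 1 / (2 * √v) ≤ (M : ℝ) := by
    have h2 : 1 / √v < M + 1 := Nat.lt_floor_add_one _
    have h3 : (1 : ℝ) ≤ M := by exact_mod_cast hM1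
    have h4 : 1 / (2 * √v) = (1 / √v) / 2 := by field_simp
    rw [h4]
    linarith
  have hvM : v * M ^ 2 ≤ 1 := by
    have h2 : (M : ℝ) ^ 2 ≤ (1 / √v) ^ 2 := pow_le_pow_left₀ (Nat.cast_nonneg _) hMle 2
    have h3 : (1 / √v) ^ 2 = 1 / v := by
      rw [div_pow, one_pow, sq, hss]
    rw [h3] at h2
    calc v * M ^ 2 ≤ v * (1 / v) := mul_le_mul_of_nonneg_left h2 hv0.le
      _ = 1 := by field_simp
  have hM2 : 1 / (4 * v) ≤ (M : ℝ) ^ 2 := by
    have h2 : (1 / (2 * √v)) ^ 2 ≤ (M : ℝ) ^ 2 := pow_le_pow_left₀ (by positivity) hMge 2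
    have h3 : (1 / (2 * √v)) ^ 2 = 1 / (4 * v) := by
      rw [div_pow, one_pow, mul_pow, sq (√v), hss]
      norm_num
    rwa [h3] at h2
  have h1 : c * (M : ℝ) ^ n * ‖FF f m τ‖ ^ 2 ≤ NN A φ τ :=
    le_NN hA heven hpos h κ hκ τ _ fun t ht => hlow τ M (by rw [← hv]; exact hvM) hM1 t ht
  have h2 : (c * (M : ℝ) ^ n * ‖FF f m τ‖ ^ 2) ^ 2 ≤ NN A φ τ ^ 2 :=
    pow_le_pow_left₀ (by positivity) h1 2
  have h3 : c ^ 2 * (1 / (4 * v)) ^ n * ‖FF f m τ‖ ^ 4 ≤ NN A φ τ ^ 2 := by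
    refine le_trans ?_ h2
    have e : (c * (M : ℝ) ^ n * ‖FF f m τ‖ ^ 2) ^ 2 = c ^ 2 * ((M : ℝ) ^ 2) ^ n * ‖FF f m τ‖ ^ 4 := by
      ring
    rw [e]
    apply mul_le_mul_of_nonneg_right _ (by positivity)
    apply mul_le_mul_of_nonneg_left _ (by positivity)
    exact pow_le_pow_left₀ (by positivity) hM2 n
  have h4 := hbd τ
  rw [← hv] at h4
  have hk0 : 0 < v ^ k := zpow_pos hv0 k
  have h5 : ((NN A φ τ * v ^ k) ^ b * (‖ModularForm.discriminant τ‖ * v ^ 6) ^ a) ^ 2 ≤ C ^ 2 :=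
    pow_le_pow_left₀ (by
      have := NN_nonneg (A := A) (φ := φ) τ
      positivity) h4 2
  have e5 : ((NN A φ τ * v ^ k) ^ b * (‖ModularForm.discriminant τ‖ * v ^ 6) ^ a) ^ 2 =
      (NN A φ τ ^ 2) ^ b * ((v ^ k) ^ (2 * b) * v ^ (12 * a)) * ‖ModularForm.discriminant τ‖ ^ (2 * a) := by
    ring
  rw [e5] at h5
  have h6 : (c ^ 2 * (1 / (4 * v)) ^ n * ‖FF f m τ‖ ^ 4) ^ b *
      ((v ^ k) ^ (2 * b) * v ^ (12 * a)) * ‖ModularForm.discriminant τ‖ ^ (2 * a) ≤ C ^ 2 := by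
    refine le_trans ?_ h5
    apply mul_le_mul_of_nonneg_right _ (by positivity)
    apply mul_le_mul_of_nonneg_right _ (by positivity)
    exact pow_le_pow_left₀ (by positivity) h3 b
  -- the power of `v`
  obtain ⟨E, hEE⟩ : ∃ E : ℕ, (n * b : ℤ) = 2 * k * b + 12 * a + E ∧ 1 ≤ E := by
    refine ⟨(n * b - (2 * k * b + 12 * a)).toNat, ?_, ?_⟩
    · rw [Int.toNat_of_nonneg (by linarith)]
      ring
    · omega
  have hvpow : (1 / (4 * v)) ^ (n * b) * ((v ^ k) ^ (2 * b) * v ^ (12 * a)) * v ^ E = (1 / 4) ^ (n * b) := by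
    have e1 : (v ^ k) ^ (2 * b) * v ^ (12 * a) * v ^ E = v ^ (n * b) := by
      rw [← zpow_natCast v (n * b), ← zpow_natCast v (12 * a), ← zpow_natCast v E, ← zpow_natCast (v ^ k) (2 * b),
        ← zpow_mul, ← zpow_add₀ hv0.ne', ← zpow_add₀ hv0.ne']
      congr 1
      push_cast
      linarith [hEE.1]
    have e2 : (1 / (4 * v)) ^ (n * b) = (1 / 4) ^ (n * b) * (v ^ (n * b))⁻¹ := by
      rw [one_div, mul_inv, mul_pow, inv_pow v, one_div]
    calc (1 / (4 * v)) ^ (n * b) * ((v ^ k) ^ (2 * b) * v ^ (12 * a)) * v ^ E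
        = (1 / (4 * v)) ^ (n * b) * ((v ^ k) ^ (2 * b) * v ^ (12 * a) * v ^ E) := by ring
      _ = (1 / 4) ^ (n * b) * ((v ^ (n * b))⁻¹ * v ^ (n * b)) := by rw [e1, e2]; ring
      _ = _ := by rw [inv_mul_cancel₀ (by positivity), mul_one]
  have h7 : (‖FF f m τ‖ ^ (2 * b) * ‖ModularForm.discriminant τ‖ ^ a) ^ 2 * ((c ^ 2) ^ b * (1 / 4) ^ (n * b)) ≤ C ^ 2 * v ^ E := by
    have h8 := mul_le_mul_of_nonneg_right h6 (show 0 ≤ v ^ E by positivity)
    refine le_trans (le_of_eq ?_) h8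
    rw [← hvpow]
    ring
  have hvE : v ^ E ≤ v := by
    calc v ^ E ≤ v ^ 1 := pow_le_pow_of_le_one hv0.le hτ hEE.2
      _ = v := pow_one v
  have h8 : (‖FF f m τ‖ ^ (2 * b) * ‖ModularForm.discriminant τ‖ ^ a) ^ 2 * ((c ^ 2) ^ b * (1 / 4) ^ (n * b)) ≤ C ^ 2 * v :=
    h7.trans (mul_le_mul_of_nonneg_left hvE (by positivity))
  have hcc : 0 < (c ^ 2) ^ b * (1 / 4) ^ (n * b) := by positivity
  rw [← le_div_iff₀ hcc] at h8
  refine h8.trans (le_of_eq ?_)
  have e6 : ((1 : ℝ) / 4) ^ (n * b) = (((4 : ℝ) ^ n) ^ b)⁻¹ := by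
    rw [one_div, inv_pow, pow_mul]
  rw [e6, div_pow]
  have h9 : ((4 : ℝ) ^ n) ^ b ≠ 0 := by positivity
  have h10 : (c ^ 2) ^ b ≠ 0 := by positivity
  field_simp

omit hA heven hpos hκ in
/-- the coefficient functions as functions of `q` -/
lemma diff_P (m : Fin n → ℤ) :
    DifferentiableOn ℂ (fun q : ℂ => ∑' j : ℕ, f j m * q ^ j) (Metric.ball 0 1) := by
  intro q hq
  rw [mem_ball_zero_iff] at hq
  obtain ⟨r, hr1, hr2⟩ := exists_between hq
  have hr0 : 0 < r := lt_of_le_of_lt (norm_nonneg _) hr1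
  -- summability at `r`
  have hsum : Summable (fun j : ℕ => ‖f j m‖ * r ^ j) := by
    have hl : 0 < -Real.log r / (2 * Real.pi) := by
      have := Real.log_neg hr0 hr2
      have := Real.pi_pos
      apply div_pos (by linarith) (by positivity)
    set τ : ℍ := ⟨((-Real.log r / (2 * Real.pi) : ℝ) : ℂ) * I, by
      rw [Complex.im_ofReal_mul, Complex.I_im, mul_one]
      exact hl⟩ with hτ
    have hτ' : (τ : ℂ) = ((-Real.log r / (2 * Real.pi) : ℝ) : ℂ) * I := rfl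
    refine (summable_j h τ m).congr fun j => ?_
    rw [norm_mul, hτ', Complex.norm_exp]
    congr 1
    have e : (2 * Real.pi * I * j * (((-Real.log r / (2 * Real.pi) : ℝ) : ℂ) * I) : ℂ) =
        ((j * Real.log r : ℝ) : ℂ) := by
      push_cast
      have hpi : (Real.pi : ℂ) ≠ 0 := by exact_mod_cast Real.pi_ne_zero
      field_simp
      rw [Complex.I_sq]
      ring
    rw [e, Complex.ofReal_re, mul_comm, Real.exp_mul, Real.exp_log hr0, Real.rpow_natCast]
  have h1 : DifferentiableOn ℂ (fun q : ℂ => ∑' j : ℕ, f j m * q ^ j) (Metric.ball 0 r) := by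
    apply differentiableOn_tsum_of_summable_norm hsum
    · intro j
      fun_prop
    · exact Metric.isOpen_ball
    · intro j w hw
      rw [mem_ball_zero_iff] at hw
      rw [norm_mul, norm_pow]
      apply mul_le_mul_of_nonneg_left _ (norm_nonneg _)
      exact pow_le_pow_left₀ (norm_nonneg _) hw.le j
  exact ((h1 q (by rw [mem_ball_zero_iff]; exact hr1)).differentiableAt
    (Metric.isOpen_ball.mem_nhds (by rw [mem_ball_zero_iff]; exact hr1))).differentiableWithinAt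

/-- **Vanishing.** -/
theorem FF_eq_zero (hinj : ∀ l : Fin n → ℤ, Al A l = 0 → l = 0) (a b : ℕ) (hb : 1 ≤ b)
    (hab : κ * b < a) (hE : 2 * k * b + 12 * a < n * b) (m : Fin n → ℤ) (τ : ℍ) :
    FF f m τ = 0 := by
  obtain ⟨C, hC, hdec⟩ := decay hA heven hpos h κ hκ hinj a b hab hE m
  set P : ℂ → ℂ := fun q => ∑' j : ℕ, f j m * q ^ j with hP
  set D : ℂ → ℂ := UpperHalfPlane.cuspFunction 1 (ModularForm.discriminant) with hD
  have hDd : DifferentiableOn ℂ D (Metric.ball 0 1) := by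
    intro q hq
    have := ModularFormClass.differentiableAt_cuspFunction (f := CuspForm.discriminant) (h := 1)
      one_pos one_mem_strictPeriods_SL (mem_ball_zero_iff.1 hq)
    exact this.differentiableWithinAt
  have hPd : DifferentiableOn ℂ P (Metric.ball 0 1) := diff_P h m
  set H : ℂ → ℂ := fun q => P q ^ (2 * b) * D q ^ a with hH
  have hHd : DifferentiableOn ℂ H (Metric.ball 0 1) := (hPd.pow _).mul (hDd.pow _)
  -- values
  have hval : ∀ τ : ℍ, P (Function.Periodic.qParam 1 τ) = FF f m τ ∧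
      D (Function.Periodic.qParam 1 τ) = ModularForm.discriminant τ := by
    intro τ
    constructor
    · rw [hP]
      unfold FF
      refine tsum_congr fun j => ?_
      unfold Function.Periodic.qParam
      rw [← Complex.exp_nat_mul]
      congr 2
      push_cast
      ring
    · exact SlashInvariantFormClass.eq_cuspFunction (f := CuspForm.discriminant) (h := 1) τ
        one_mem_strictPeriods_SL one_ne_zero
  have hbound : ∀ q : ℂ, q ≠ 0 → ‖q‖ < 1 → -Real.log ‖q‖ / (2 * Real.pi) ≤ 1 →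
      ‖H q‖ ^ 2 ≤ C * (-Real.log ‖q‖ / (2 * Real.pi)) := by
    intro q hq0 hq1 hq2
    have him := Function.Periodic.im_invQParam_pos_of_norm_lt_one one_pos hq1 hq0
    set τ : ℍ := ⟨Function.Periodic.invQParam 1 q, him⟩ with hτ
    have hqτ : Function.Periodic.qParam 1 τ = q := Function.Periodic.qParam_right_inv one_ne_zero hq0
    obtain ⟨h1, h2⟩ := hval τ
    rw [hqτ] at h1 h2
    have h3 : τ.im = -Real.log ‖q‖ / (2 * Real.pi) := by
      have h4 : τ.im = (Function.Periodic.invQParam 1 q).im := rfl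
      rw [h4, Function.Periodic.im_invQParam]
      ring
    have h4 := hdec τ (by rw [h3]; exact hq2)
    rw [← h3]
    refine le_trans (le_of_eq ?_) h4
    rw [hH]
    simp only
    rw [h1, h2, norm_mul, norm_pow, norm_pow]
  -- maximum principle
  have hH0 : ∀ q : ℂ, ‖q‖ < 1 → H q = 0 := by
    intro q hq
    by_contra hne
    have hpos' : 0 < ‖H q‖ := norm_pos_iff.2 hne
    -- choose the radius
    have hlim : Tendsto (fun r : ℝ => C * (-Real.log r / (2 * Real.pi))) (𝓝[<] 1) (𝓝 0) := by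
      have h1 : Tendsto (fun r : ℝ => C * (-Real.log r / (2 * Real.pi))) (𝓝 1)
          (𝓝 (C * (-Real.log 1 / (2 * Real.pi)))) :=
        (((Real.continuousAt_log one_ne_zero).neg.div_const _).const_mul C).tendsto
      rw [Real.log_one, neg_zero, zero_div, mul_zero] at h1
      exact h1.mono_left nhdsWithin_le_nhds
    have hlim2 : Tendsto (fun r : ℝ => -Real.log r / (2 * Real.pi)) (𝓝[<] 1) (𝓝 0) := by
      have h1 : Tendsto (fun r : ℝ => -Real.log r / (2 * Real.pi)) (𝓝 1)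
          (𝓝 (-Real.log 1 / (2 * Real.pi))) :=
        ((Real.continuousAt_log one_ne_zero).neg.div_const _).tendsto
      rw [Real.log_one, neg_zero, zero_div] at h1
      exact h1.mono_left nhdsWithin_le_nhds
    have hev1 := hlim.eventually (gt_mem_nhds (show (0 : ℝ) < ‖H q‖ ^ 2 by positivity))
    have hev2 := hlim2.eventually (gt_mem_nhds (show (0 : ℝ) < 1 by norm_num))
    have hev3 : ∀ᶠ r in 𝓝[<] (1 : ℝ), max ‖q‖ (1 / 2) < r :=
      (lt_mem_nhds (max_lt hq (by norm_num))).filter_mono nhdsWithin_le_nhds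
    have hev4 : ∀ᶠ r in 𝓝[<] (1 : ℝ), r < 1 := eventually_mem_nhdsWithin
    obtain ⟨r, ⟨⟨h1, h2⟩, h3⟩, h4⟩ := (((hev1.and hev2).and hev3).and hev4).exists
    have hqr : ‖q‖ < r := lt_of_le_of_lt (le_max_left _ _) h3
    have hr0 : 0 < r := lt_of_lt_of_le (by norm_num) ((le_max_right ‖q‖ (1 / 2)).trans h3.le)
    have hdc : DiffContOnCl ℂ H (Metric.ball 0 r) := by
      apply DifferentiableOn.diffContOnCl
      rw [closure_ball _ hr0.ne']
      exact hHd.mono (Metric.closedBall_subset_ball h4)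
    set B := √(C * (-Real.log r / (2 * Real.pi))) with hB
    have hle := Complex.norm_le_of_forall_mem_frontier_norm_le (U := Metric.ball (0 : ℂ) r)
      Metric.isBounded_ball hdc (C := B) (fun w hw => by
        rw [frontier_ball _ hr0.ne', mem_sphere_zero_iff_norm] at hw
        have hw0 : w ≠ 0 := by
          rw [← norm_pos_iff, hw]
          exact hr0
        have h5 := hbound w hw0 (by rw [hw]; exact h4) (by rw [hw]; exact h2.le)
        rw [hw] at h5
        rw [hB]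
        exact Real.le_sqrt_of_sq_le h5) (subset_closure (mem_ball_zero_iff.2 hqr))
    have h6 : B ^ 2 < ‖H q‖ ^ 2 := by
      rw [hB, Real.sq_sqrt]
      · exact h1
      · have := Real.log_neg hr0 h4
        have := Real.pi_pos
        apply mul_nonneg hC.le
        apply div_nonneg (by linarith) (by positivity)
    have h7 : ‖H q‖ ^ 2 ≤ B ^ 2 := pow_le_pow_left₀ (norm_nonneg _) hle 2
    linarith
  have hq1 : ‖Function.Periodic.qParam 1 (τ : ℂ)‖ < 1 := Function.Periodic.norm_qParam_lt_one one_pos τ.im_pos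
  have h1 := hH0 _ hq1
  rw [hH] at h1
  simp only at h1
  rw [(hval τ).1, (hval τ).2] at h1
  rcases mul_eq_zero.1 h1 with h2 | h2
  · exact pow_eq_zero_iff (by omega) |>.1 h2
  · exact absurd h2 (pow_ne_zero a (ModularForm.discriminant_ne_zero τ))

/-- the form vanishes -/
theorem phi_eq_zero (hinj : ∀ l : Fin n → ℤ, Al A l = 0 → l = 0) (a b : ℕ) (hb : 1 ≤ b)
    (hab : κ * b < a) (hE : 2 * k * b + 12 * a < n * b) (τ : ℍ) (z : Fin n → ℂ) : φ τ z = 0 := by
  have h1 := hasSum_m h τ (fun i => z i / τ) 0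
  have e1 : (fun i => (((0 : Fin n → ℝ) i : ℝ) : ℂ) + z i / τ * τ) = z := by
    ext i
    have hτ : (τ : ℂ) ≠ 0 := UpperHalfPlane.ne_zero τ
    simp only [Pi.zero_apply, Complex.ofReal_zero, zero_add]
    field_simp
  rw [e1] at h1
  have h2 : ∀ m : Fin n → ℤ, FF f m τ * cexp (2 * Real.pi * I * τ * ∑ i, (m i : ℂ) * (z i / τ)) *
      cexp (2 * Real.pi * I * ∑ i, (m i : ℂ) * (((0 : Fin n → ℝ) i : ℝ) : ℂ)) = 0 := by
    intro m
    rw [FF_eq_zero hA heven hpos h κ hκ hinj a b hb hab hE m τ, zero_mul, zero_mul]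
  simp only [h2] at h1
  exact h1.unique hasSum_zero

end

end Pool.Agent.Q263.WJ
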