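import Mathlib
import Pool.Agent.Q263.WJ.Van

/-!
A lattice of rank 23 and determinant 2.
-/

set_option autoImplicit false

open Finset

namespace Pool.Agent.Q263.WJ

/-- the Gram matrix: a chain of 22 vectors of norm 2, and a vector of norm 4 attached to the fifth
one -/
def TA : Matrix (Fin 23) (Fin 23) ℤ := fun i j =>
  if i = j then (if i.val = 22 then 4 else 2)
  else if (i.val + 1 = j.val ∧ j.val < 22) ∨ (j.val + 1 = i.val ∧ i.val < 22) ∨
    (i.val = 4 ∧ j.val = 22) ∨ (i.val = 22 ∧ j.val = 4) then -1 else 0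

/-- twice the inverse -/
def CT : List (List ℤ) :=
  [[16, 30, 44, 58, 72, 68, 64, 60, 56, 52, 48, 44, 40, 36, 32, 28, 24, 20, 16, 12, 8, 4, 18],
   [30, 60, 88, 116, 144, 136, 128, 120, 112, 104, 96, 88, 80, 72, 64, 56, 48, 40, 32, 24, 16, 8, 36],
   [44, 88, 132, 174, 216, 204, 192, 180, 168, 156, 144, 132, 120, 108, 96, 84, 72, 60, 48, 36, 24, 12, 54],
   [58, 116, 174, 232, 288, 272, 256, 240, 224, 208, 192, 176, 160, 144, 128, 112, 96, 80, 64, 48, 32, 16, 72],
   [72, 144, 216, 288, 360, 340, 320, 300, 280, 260, 240, 220, 200, 180, 160, 140, 120, 100, 80, 60, 40, 20, 90],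
   [68, 136, 204, 272, 340, 323, 304, 285, 266, 247, 228, 209, 190, 171, 152, 133, 114, 95, 76, 57, 38, 19, 85],
   [64, 128, 192, 256, 320, 304, 288, 270, 252, 234, 216, 198, 180, 162, 144, 126, 108, 90, 72, 54, 36, 18, 80],
   [60, 120, 180, 240, 300, 285, 270, 255, 238, 221, 204, 187, 170, 153, 136, 119, 102, 85, 68, 51, 34, 17, 75],
   [56, 112, 168, 224, 280, 266, 252, 238, 224, 208, 192, 176, 160, 144, 128, 112, 96, 80, 64, 48, 32, 16, 70],
   [52, 104, 156, 208, 260, 247, 234, 221, 208, 195, 180, 165, 150, 135, 120, 105, 90, 75, 60, 45, 30, 15, 65],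
   [48, 96, 144, 192, 240, 228, 216, 204, 192, 180, 168, 154, 140, 126, 112, 98, 84, 70, 56, 42, 28, 14, 60],
   [44, 88, 132, 176, 220, 209, 198, 187, 176, 165, 154, 143, 130, 117, 104, 91, 78, 65, 52, 39, 26, 13, 55],
   [40, 80, 120, 160, 200, 190, 180, 170, 160, 150, 140, 130, 120, 108, 96, 84, 72, 60, 48, 36, 24, 12, 50],
   [36, 72, 108, 144, 180, 171, 162, 153, 144, 135, 126, 117, 108, 99, 88, 77, 66, 55, 44, 33, 22, 11, 45],
   [32, 64, 96, 128, 160, 152, 144, 136, 128, 120, 112, 104, 96, 88, 80, 70, 60, 50, 40, 30, 20, 10, 40],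
   [28, 56, 84, 112, 140, 133, 126, 119, 112, 105, 98, 91, 84, 77, 70, 63, 54, 45, 36, 27, 18, 9, 35],
   [24, 48, 72, 96, 120, 114, 108, 102, 96, 90, 84, 78, 72, 66, 60, 54, 48, 40, 32, 24, 16, 8, 30],
   [20, 40, 60, 80, 100, 95, 90, 85, 80, 75, 70, 65, 60, 55, 50, 45, 40, 35, 28, 21, 14, 7, 25],
   [16, 32, 48, 64, 80, 76, 72, 68, 64, 60, 56, 52, 48, 44, 40, 36, 32, 28, 24, 18, 12, 6, 20],
   [12, 24, 36, 48, 60, 57, 54, 51, 48, 45, 42, 39, 36, 33, 30, 27, 24, 21, 18, 15, 10, 5, 15],
   [8, 16, 24, 32, 40, 38, 36, 34, 32, 30, 28, 26, 24, 22, 20, 18, 16, 14, 12, 10, 8, 4, 10],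
   [4, 8, 12, 16, 20, 19, 18, 17, 16, 15, 14, 13, 12, 11, 10, 9, 8, 7, 6, 5, 4, 3, 5],
   [18, 36, 54, 72, 90, 85, 80, 75, 70, 65, 60, 55, 50, 45, 40, 35, 30, 25, 20, 15, 10, 5, 23]]

def Cm (i j : Fin 23) : ℤ := ((CT.getD i.val []).getD j.val 0)

def Bm (k i : Fin 23) : ℤ :=
  if i.val = 22 then (if k.val < 5 then -18 else 5)
  else (if k.val = i.val then 23 else if k.val = i.val + 1 then -23 else 0)

set_option maxRecDepth 100000 in
lemma CA (i j : Fin 23) : ∑ k, Cm i k * TA k j = if i = j then 2 else 0 := by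
  revert i j
  decide


set_option maxRecDepth 100000 in
lemma TA_symm' : ∀ i j : Fin 23, TA i j - TA j i = 0 := by
  decide

lemma TA_symm (i j : Fin 23) : TA i j = TA j i := sub_eq_zero.1 (TA_symm' i j)

set_option maxRecDepth 100000 in
lemma TA_even (i : Fin 23) : TA i i % 2 = 0 := by
  revert i
  decide

set_option maxRecDepth 100000 in
lemma BB (i j : Fin 23) : 529 * TA i j = ∑ k, Bm k i * Bm k j +
    46 * ((if i.val = 22 then 1 else 0) * (if j.val = 22 then 1 else 0)) := by
  revert i j
  decide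

/-- the vector `2 A⁻¹ e` -/
def wv (i : Fin 23) : ℤ := Cm i 21

set_option maxRecDepth 100000 in
lemma Cm_mod (i j : Fin 23) : (Cm i j - wv i * wv j) % 2 = 0 := by
  revert i j
  decide

set_option maxRecDepth 100000 in
lemma AC (i j : Fin 23) : ∑ k, TA i k * Cm k j = if i = j then 2 else 0 := by
  revert i j
  decide

lemma wv_last : wv 21 = 3 := by decide

/-- a functional which vanishes on the chain up to one entry -/
def uu (i : Fin 23) : ℤ := if i.val = 22 then 0 else i.val + 1

set_option maxRecDepth 100000 in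
lemma uA (j : Fin 23) : ∑ i, uu i * TA i j = if j.val = 21 then 23 else if j.val = 22 then -5 else 0 := by
  revert j
  decide

/-! ### consequences -/

lemma Al_TA_inj (l : Fin 23 → ℤ) (h : Al TA l = 0) : l = 0 := by
  ext i
  have h1 : ∑ k, Cm i k * (Al TA l) k = 2 * l i := by
    unfold Al
    calc ∑ k, Cm i k * ∑ j, TA k j * l j = ∑ j, (∑ k, Cm i k * TA k j) * l j := by
          simp only [Finset.mul_sum, Finset.sum_mul]
          rw [Finset.sum_comm]
          refine Finset.sum_congr rfl fun j _ => Finset.sum_congr rfl fun k _ => ?_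
          ring
      _ = ∑ j, (if i = j then 2 else 0) * l j := by
          refine Finset.sum_congr rfl fun j _ => ?_
          rw [CA]
      _ = 2 * l i := by simp
  rw [h] at h1
  simp only [Pi.zero_apply, mul_zero, Finset.sum_const_zero] at h1
  simp only [Pi.zero_apply]
  omega

/-- `529 (s, s)` as a sum of squares -/
lemma bf_TA (s : Fin 23 → ℝ) : 529 * bf TA s s =
    ∑ k, (∑ i, (Bm k i : ℝ) * s i) ^ 2 + 46 * s 22 ^ 2 := by
  have hB : ∀ i j : Fin 23, (529 : ℝ) * (TA i j : ℝ) = ∑ k, (Bm k i : ℝ) * (Bm k j : ℝ) +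
      46 * ((if i.val = 22 then 1 else 0) * (if j.val = 22 then 1 else 0)) := by
    intro i j
    have := BB i j
    have h2 : ((529 * TA i j : ℤ) : ℝ) = ((∑ k, Bm k i * Bm k j +
      46 * ((if i.val = 22 then 1 else 0) * (if j.val = 22 then 1 else 0)) : ℤ) : ℝ) := by rw [this]
    push_cast at h2
    exact h2
  have h22 : ∀ c : ℝ, (∑ i : Fin 23, (if i.val = 22 then (1 : ℝ) else 0) * s i) = s 22 := by
    intro c
    rw [Finset.sum_eq_single (22 : Fin 23)]
    · simp
    · intro i _ hi
      rw [if_neg, zero_mul]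
      intro h
      exact hi (Fin.ext h)
    · intro h
      exact absurd (Finset.mem_univ _) h
  unfold bf
  calc 529 * ∑ i, ∑ j, (TA i j : ℝ) * s i * s j = ∑ i, ∑ j, (529 * (TA i j : ℝ)) * (s i * s j) := by
        rw [Finset.mul_sum]
        refine Finset.sum_congr rfl fun i _ => ?_
        rw [Finset.mul_sum]
        refine Finset.sum_congr rfl fun j _ => ?_
        ring
    _ = ∑ i, ∑ j, ((∑ k, (Bm k i : ℝ) * (Bm k j : ℝ)) * (s i * s j) +
        46 * (((if i.val = 22 then 1 else 0) * s i) * ((if j.val = 22 then 1 else 0) * s j))) := by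
        refine Finset.sum_congr rfl fun i _ => Finset.sum_congr rfl fun j _ => ?_
        rw [hB]
        ring
    _ = (∑ i, ∑ j, (∑ k, (Bm k i : ℝ) * (Bm k j : ℝ)) * (s i * s j)) +
        46 * ((∑ i : Fin 23, (if i.val = 22 then (1 : ℝ) else 0) * s i) *
          (∑ j : Fin 23, (if j.val = 22 then (1 : ℝ) else 0) * s j)) := by
        simp only [Finset.sum_add_distrib]
        congr 1
        rw [Finset.sum_mul_sum, Finset.mul_sum]
        refine Finset.sum_congr rfl fun i _ => ?_
        rw [Finset.mul_sum]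
    _ = _ := by
        rw [h22 0]
        congr 1
        · have hk : ∀ k, (∑ i, (Bm k i : ℝ) * s i) ^ 2 =
              ∑ i, ∑ j, (Bm k i : ℝ) * (Bm k j : ℝ) * (s i * s j) := by
            intro k
            rw [sq, Finset.sum_mul_sum]
            refine Finset.sum_congr rfl fun i _ => Finset.sum_congr rfl fun j _ => ?_
            ring
          simp only [hk, Finset.sum_mul]
          calc ∑ i, ∑ j, ∑ k, (Bm k i : ℝ) * (Bm k j : ℝ) * (s i * s j)
              = ∑ i, ∑ k, ∑ j, (Bm k i : ℝ) * (Bm k j : ℝ) * (s i * s j) := by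
                refine Finset.sum_congr rfl fun j _ => Finset.sum_comm
            _ = ∑ k, ∑ i, ∑ j, (Bm k i : ℝ) * (Bm k j : ℝ) * (s i * s j) := Finset.sum_comm
        · ring

lemma bf_TA_nonneg (s : Fin 23 → ℝ) : 0 ≤ bf TA s s := by
  have h1 := bf_TA s
  have h2 : 0 ≤ ∑ k, (∑ i, (Bm k i : ℝ) * s i) ^ 2 + 46 * s 22 ^ 2 :=
    add_nonneg (Finset.sum_nonneg fun _ _ => sq_nonneg _) (by positivity)
  linarith

/-- positive definite -/
lemma bf_TA_pos (s : Fin 23 → ℝ) (hs : s ≠ 0) : 0 < bf TA s s := by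
  rcases (bf_TA_nonneg s).lt_or_eq with h | h
  · exact h
  exfalso
  have h1 := bf_TA s
  rw [← h, mul_zero] at h1
  have h2 : ∑ k, (∑ i, (Bm k i : ℝ) * s i) ^ 2 = 0 ∧ 46 * s 22 ^ 2 = 0 := by
    have h3 : 0 ≤ ∑ k, (∑ i, (Bm k i : ℝ) * s i) ^ 2 := Finset.sum_nonneg fun _ _ => sq_nonneg _
    have h4 : 0 ≤ 46 * s 22 ^ 2 := by positivity
    constructor <;> linarith
  have h3 : ∀ k, ∑ i, (Bm k i : ℝ) * s i = 0 := by
    intro k
    have h4 := (Finset.sum_eq_zero_iff_of_nonneg (fun k _ => sq_nonneg _)).1 h2.1 k (Finset.mem_univ _)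
    exact pow_eq_zero_iff (two_ne_zero) |>.1 h4
  have h4 : s 22 = 0 := by
    have := h2.2
    have h5 : s 22 ^ 2 = 0 := by linarith
    exact pow_eq_zero_iff (two_ne_zero) |>.1 h5
  -- `A s = 0`
  have hB : ∀ i j : Fin 23, (529 : ℝ) * (TA i j : ℝ) = ∑ k, (Bm k i : ℝ) * (Bm k j : ℝ) +
      46 * ((if i.val = 22 then 1 else 0) * (if j.val = 22 then 1 else 0)) := by
    intro i j
    have := BB i j
    have h2 : ((529 * TA i j : ℤ) : ℝ) = ((∑ k, Bm k i * Bm k j +
      46 * ((if i.val = 22 then 1 else 0) * (if j.val = 22 then 1 else 0)) : ℤ) : ℝ) := by rw [this]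
    push_cast at h2
    exact h2
  have h5 : ∀ i, ∑ j, (TA i j : ℝ) * s j = 0 := by
    intro i
    have h6 : 529 * ∑ j, (TA i j : ℝ) * s j = 0 := by
      calc 529 * ∑ j, (TA i j : ℝ) * s j = ∑ j, (529 * (TA i j : ℝ)) * s j := by
            rw [Finset.mul_sum]
            refine Finset.sum_congr rfl fun j _ => ?_
            ring
        _ = ∑ j, ((∑ k, (Bm k i : ℝ) * (Bm k j : ℝ)) * s j +
            46 * (if i.val = 22 then 1 else 0) * ((if j.val = 22 then 1 else 0) * s j)) := by
            refine Finset.sum_congr rfl fun j _ => ?_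
            rw [hB]
            ring
        _ = ∑ j, (∑ k, (Bm k i : ℝ) * (Bm k j : ℝ)) * s j +
            ∑ j : Fin 23, 46 * (if i.val = 22 then (1 : ℝ) else 0) * ((if j.val = 22 then 1 else 0) * s j) := by
            rw [Finset.sum_add_distrib]
        _ = 0 + 0 := by
            congr 1
            · simp only [Finset.sum_mul]
              rw [Finset.sum_comm]
              apply Finset.sum_eq_zero
              intro k _
              calc ∑ j, (Bm k i : ℝ) * (Bm k j : ℝ) * s j = (Bm k i : ℝ) * ∑ j, (Bm k j : ℝ) * s j := by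
                    rw [Finset.mul_sum]
                    refine Finset.sum_congr rfl fun j _ => ?_
                    ring
                _ = 0 := by rw [h3, mul_zero]
            · apply Finset.sum_eq_zero
              intro j _
              by_cases hj : j.val = 22
              · have : j = 22 := Fin.ext hj
                rw [this, h4]
                ring
              · rw [if_neg hj]
                ring
        _ = 0 := by ring
    linarith
  apply hs
  ext i
  have h6 : ∑ k, (Cm i k : ℝ) * ∑ j, (TA k j : ℝ) * s j = 2 * s i := by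
    calc ∑ k, (Cm i k : ℝ) * ∑ j, (TA k j : ℝ) * s j = ∑ j, (∑ k, (Cm i k : ℝ) * (TA k j : ℝ)) * s j := by
          simp only [Finset.mul_sum, Finset.sum_mul]
          rw [Finset.sum_comm]
          refine Finset.sum_congr rfl fun j _ => Finset.sum_congr rfl fun k _ => ?_
          ring
      _ = ∑ j, (if i = j then 2 else 0) * s j := by
          refine Finset.sum_congr rfl fun j _ => ?_
          have h7 : ((∑ k, Cm i k * TA k j : ℤ) : ℝ) = ((if i = j then 2 else 0 : ℤ) : ℝ) := by rw [CA]
          push_cast at h7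
          rw [h7]
      _ = 2 * s i := by simp
  simp only [h5, mul_zero, Finset.sum_const_zero] at h6
  simp only [Pi.zero_apply]
  linarith

/-- the covering condition -/
lemma cov_TA : Cov TA (3 / 2) := by
  have hw2 : ∀ i, ∑ k, TA i k * wv k = if i = 21 then 2 else 0 := fun i => AC i 21
  -- even case
  have heven : ∀ m : Fin 23 → ℤ, (∑ i, wv i * m i) % 2 = 0 → ∃ l : Fin 23 → ℤ, m = Al TA l := by
    intro m hm
    have h1 : ∀ i, ∃ l : ℤ, ∑ k, Cm i k * m k = 2 * l := by
      intro i
      have h2 : (∑ k, Cm i k * m k) = ∑ k, (Cm i k - wv i * wv k) * m k + wv i * ∑ k, wv k * m k := by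
        rw [Finset.mul_sum, ← Finset.sum_add_distrib]
        refine Finset.sum_congr rfl fun k _ => ?_
        ring
      have h3 : (2 : ℤ) ∣ ∑ k, (Cm i k - wv i * wv k) * m k :=
        Finset.dvd_sum fun k _ => (Int.dvd_of_emod_eq_zero (Cm_mod i k)).mul_right _
      have h4 : (2 : ℤ) ∣ wv i * ∑ k, wv k * m k := (Int.dvd_of_emod_eq_zero hm).mul_left _
      rw [h2]
      exact (dvd_add h3 h4)
    choose l hl using h1
    refine ⟨l, ?_⟩
    ext i
    have h5 : 2 * Al TA l i = 2 * m i := by
      unfold Al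
      calc 2 * ∑ j, TA i j * l j = ∑ j, TA i j * (2 * l j) := by
            rw [Finset.mul_sum]
            refine Finset.sum_congr rfl fun j _ => ?_
            ring
        _ = ∑ j, TA i j * ∑ k, Cm j k * m k := by
            refine Finset.sum_congr rfl fun j _ => ?_
            rw [hl]
        _ = ∑ k, (∑ j, TA i j * Cm j k) * m k := by
            simp only [Finset.mul_sum, Finset.sum_mul]
            rw [Finset.sum_comm]
            refine Finset.sum_congr rfl fun j _ => Finset.sum_congr rfl fun k _ => ?_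
            ring
        _ = ∑ k, (if i = k then 2 else 0) * m k := by
            refine Finset.sum_congr rfl fun k _ => ?_
            rw [AC]
        _ = 2 * m i := by simp
    linarith
  -- the norm of the nontrivial class
  have hnorm : ∀ s : Fin 23 → ℝ, -(3 / 2 : ℝ) ≤ 2 * s 21 + bf TA s s := by
    intro s
    have h1 := bf_TA_nonneg (s + fun i => (wv i : ℝ) / 2)
    rw [bf_add_self TA (by ext i j; exact TA_symm j i)] at h1
    have h2 : ∀ x : Fin 23 → ℝ, bf TA (fun i => (wv i : ℝ) / 2) x = x 21 := by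
      intro x
      unfold bf
      rw [Finset.sum_comm]
      calc ∑ j, ∑ i, (TA i j : ℝ) * ((wv i : ℝ) / 2) * x j = ∑ j, ((∑ i, TA j i * wv i : ℤ) : ℝ) / 2 * x j := by
            refine Finset.sum_congr rfl fun j _ => ?_
            push_cast
            rw [Finset.sum_div, Finset.sum_mul]
            refine Finset.sum_congr rfl fun i _ => ?_
            rw [TA_symm i j]
            ring
        _ = ∑ j, (if j = 21 then 1 else 0) * x j := by
            refine Finset.sum_congr rfl fun j _ => ?_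
            rw [hw2]
            split_ifs <;> norm_num
        _ = x 21 := by simp
    rw [h2, h2, wv_last] at h1
    norm_num at h1
    linarith
  intro m
  rcases Int.emod_two_eq_zero_or_one (∑ i, wv i * m i) with h | h
  · obtain ⟨l, hl⟩ := heven m h
    refine ⟨0, l, by rw [zero_add]; exact hl, fun s => ?_⟩
    have := bf_TA_nonneg s
    simp only [Pi.zero_apply, Int.cast_zero, zero_mul, Finset.sum_const_zero, mul_zero, zero_add]
    linarith
  · obtain ⟨l, hl⟩ := heven (m - (Pi.single 21 1 : Fin 23 → ℤ)) (by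
      have h1 : ∑ i, wv i * (m - (Pi.single 21 1 : Fin 23 → ℤ)) i = ∑ i, wv i * m i - 3 := by
        simp only [Pi.sub_apply, mul_sub, Finset.sum_sub_distrib]
        congr 1
      rw [h1]
      omega)
    refine ⟨Pi.single 21 1, l, by rw [← hl]; ring, fun s => ?_⟩
    have h2 : ∑ i, (((Pi.single 21 1 : Fin 23 → ℤ) i : ℤ) : ℝ) * s i = s 21 := by
      rw [Finset.sum_eq_single (21 : Fin 23)]
      · rw [Pi.single_eq_same]
        simp
      · intro i _ hi
        rw [Pi.single_eq_of_ne hi]
        simp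
      · intro h'
        exact absurd (Finset.mem_univ _) h'
    rw [h2]
    exact hnorm s

end Pool.Agent.Q263.WJ
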