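import Mathlib
import Pool.Agent.Q263.WJ.Van
import Pool.Agent.Q263.WJ.Lat
import Pool.Agent.Q263.WJ.Defs

/-!
Conclusion: vanishing in terms of the definitions, and irreducibility of the lattice.
-/

set_option autoImplicit false

open Finset Complex
open UpperHalfPlane hiding I
open scoped MatrixGroups

namespace Pool.Agent.Q263.WJ

variable {n : ℕ} {A : Matrix (Fin n) (Fin n) ℤ} {k : ℤ} {φ : ℍ → (Fin n → ℂ) → ℂ}

lemma WeakJacobi.toJF (h : WeakJacobi A k φ) : ∃ f, JF A k φ f := by
  obtain ⟨f, hf⟩ := h.fourier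
  refine ⟨f, ?_, ?_, ?_, ?_, hf⟩
  · intro τ
    have h1 : Continuous (fun z : Fin n → ℂ => φ (UpperHalfPlane.ofComplex (τ : ℂ)) z) := by
      rw [← continuousOn_univ]
      have h2 : ContinuousOn (fun p : ℂ × (Fin n → ℂ) => φ (UpperHalfPlane.ofComplex p.1) p.2)
        {p | 0 < p.1.im} := h.holo.continuousOn
      exact h2.comp (f := fun z : Fin n → ℂ => ((τ : ℂ), z)) (by fun_prop) (fun z _ => τ.im_pos)
    rw [UpperHalfPlane.ofComplex_apply] at h1
    exact h1
  · intro τ z
    have h1 := h.modular ModularGroup.T τ z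
    have e1 : cd ModularGroup.T τ = 1 := by
      unfold cd ModularGroup.T
      simp
    have e2 : ((ModularGroup.T.1 1 0 : ℤ) : ℂ) = 0 := by
      unfold ModularGroup.T
      simp
    rw [e1, e2] at h1
    simp only [div_one, one_zpow, mul_zero, zero_mul, Complex.exp_zero, one_mul] at h1
    exact h1
  · intro τ z
    have h1 := h.modular ModularGroup.S τ z
    have e1 : cd ModularGroup.S τ = τ := by
      unfold cd ModularGroup.S
      simp
    have e2 : ((ModularGroup.S.1 1 0 : ℤ) : ℂ) = 1 := by
      unfold ModularGroup.S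
      simp
    rw [e1, e2, mul_one] at h1
    exact h1
  · exact h.elliptic

/-- **Vanishing theorem.** -/
theorem vanish (hA : EvenPosDef A) (κ : ℝ) (hκ : Cov A κ) (hk : (k : ℝ) + 6 * κ < n / 2)
    (hφ : WeakJacobi A k φ) (τ : ℍ) (z : Fin n → ℂ) : φ τ z = 0 := by
  obtain ⟨f, hf⟩ := hφ.toJF
  obtain ⟨h1, h2, h3⟩ := hA
  have hpos : ∀ s : Fin n → ℝ, 0 ≤ bf A s s := by
    intro s
    by_cases hs : s = 0
    · subst hs
      unfold bf
      simp
    · exact (h3 s hs).le
  have hκ0 : 0 ≤ κ := by
    obtain ⟨m', l, _, h4⟩ := hκ 0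
    have h5 := h4 0
    unfold bf at h5
    simp only [Pi.zero_apply, mul_zero, Finset.sum_const_zero, add_zero] at h5
    linarith
  have hinj : ∀ l : Fin n → ℤ, Al A l = 0 → l = 0 := by
    intro l hl
    by_contra hne
    have h4 : (fun i => (l i : ℝ)) ≠ 0 := by
      intro h5
      apply hne
      ext i
      have := congrFun h5 i
      simpa using this
    have h5 := h3 _ h4
    have h6 : ∑ i, ∑ j, (A i j : ℝ) * (l i : ℝ) * (l j : ℝ) =
        ((∑ i, l i * Al A l i : ℤ) : ℝ) := by
      unfold Al
      push_cast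
      refine Finset.sum_congr rfl fun i _ => ?_
      rw [Finset.mul_sum]
      refine Finset.sum_congr rfl fun j _ => ?_
      ring
    rw [h6, hl] at h5
    simp at h5
  -- choice of the parameters
  obtain ⟨r, hr1, hr2⟩ := exists_rat_btwn (show κ < (n / 2 - k) / 6 by linarith)
  have hr0 : 0 < r := by
    have : (0 : ℝ) < r := lt_of_le_of_lt hκ0 hr1
    exact_mod_cast this
  have hden : (0 : ℝ) < r.den := by exact_mod_cast r.den_pos
  have hnum : ((r.num.toNat : ℕ) : ℝ) = r * r.den := by
    have h4 : ((r.num.toNat : ℕ) : ℤ) = r.num := Int.toNat_of_nonneg (Rat.num_nonneg.2 hr0.le)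
    have h5 : ((r.num.toNat : ℕ) : ℝ) = ((r.num : ℤ) : ℝ) := by exact_mod_cast h4
    rw [h5]
    have h6 := Rat.mul_den_eq_num r
    exact_mod_cast h6.symm
  refine phi_eq_zero h1 h2 hpos hf κ hκ hinj r.num.toNat r.den r.den_pos ?_ ?_ τ z
  · rw [hnum]
    exact mul_lt_mul_of_pos_right hr1 hden
  · have h4 : (2 * k * r.den + 12 * (r.num.toNat : ℕ) : ℝ) < n * r.den := by
      rw [hnum]
      have h5 : (2 * (k : ℝ) + 12 * r) < n := by linarith
      nlinarith
    exact_mod_cast h4

/-! ### the lattice of rank 23 -/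

lemma evenPosDef_TA : EvenPosDef TA := by
  refine ⟨?_, ?_, ?_⟩
  · ext i j
    exact TA_symm j i
  · intro i
    exact Int.even_iff.2 (TA_even i)
  · exact bf_TA_pos

lemma not_unimodular_TA : ¬ Unimodular TA := by
  intro h
  obtain ⟨x, hx⟩ := h (fun i => (wv i : ℝ) / 2) (by
    intro x
    refine ⟨x 21, ?_⟩
    have h1 : ∀ i, ∑ k, TA i k * wv k = if i = 21 then 2 else 0 := fun i => AC i 21
    calc ∑ i, ∑ j, (TA i j : ℝ) * x i * ((wv j : ℝ) / 2) =
          ∑ i, (x i : ℝ) * (((∑ j, TA i j * wv j : ℤ) : ℝ) / 2) := by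
          refine Finset.sum_congr rfl fun i _ => ?_
          push_cast
          rw [Finset.sum_div, Finset.mul_sum]
          refine Finset.sum_congr rfl fun j _ => ?_
          ring
      _ = ∑ i, (x i : ℝ) * (if i = 21 then 1 else 0) := by
          refine Finset.sum_congr rfl fun i _ => ?_
          rw [h1]
          split_ifs <;> norm_num
      _ = x 21 := by simp)
  have h1 := congrFun hx 21
  rw [wv_last] at h1
  have h2 : (3 : ℝ) = 2 * x 21 := by
    push_cast at h1
    linarith
  have h3 : (3 : ℤ) = 2 * x 21 := by exact_mod_cast h2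
  omega

/-- the integral form -/
def zb (x y : Fin 23 → ℤ) : ℤ := ∑ i, ∑ j, TA i j * x i * y j

lemma zb_eq (x y : Fin 23 → ℤ) : zb x y = ∑ i, x i * Al TA y i := by
  unfold zb Al
  refine Finset.sum_congr rfl fun i _ => ?_
  rw [Finset.mul_sum]
  refine Finset.sum_congr rfl fun j _ => ?_
  ring

lemma zb_symm (x y : Fin 23 → ℤ) : zb x y = zb y x := by
  unfold zb
  rw [Finset.sum_comm]
  refine Finset.sum_congr rfl fun i _ => Finset.sum_congr rfl fun j _ => ?_
  rw [TA_symm]
  ring

lemma zb_add_left (x x' y : Fin 23 → ℤ) : zb (x + x') y = zb x y + zb x' y := by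
  rw [zb_eq, zb_eq, zb_eq, ← Finset.sum_add_distrib]
  refine Finset.sum_congr rfl fun i _ => ?_
  simp only [Pi.add_apply]
  ring

lemma zb_single (i : Fin 23) (y : Fin 23 → ℤ) : zb (Pi.single i 1) y = Al TA y i := by
  rw [zb_eq, Finset.sum_eq_single i]
  · rw [Pi.single_eq_same, one_mul]
  · intro j _ hj
    rw [Pi.single_eq_of_ne hj, zero_mul]
  · intro h
    exact absurd (Finset.mem_univ _) h

lemma Al_single (i j : Fin 23) : Al TA (Pi.single j 1) i = TA i j := by
  unfold Al
  rw [Finset.sum_eq_single j]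
  · rw [Pi.single_eq_same, mul_one]
  · intro l _ hl
    rw [Pi.single_eq_of_ne hl, mul_zero]
  · intro h
    exact absurd (Finset.mem_univ _) h

lemma zb_even (x : Fin 23 → ℤ) : Even (zb x x) := by
  have := even_sum (fun i j => TA i j * x i * x j) (fun i j => by
    rw [TA_symm i j]
    ring) (fun i => by
    rw [mul_assoc]
    exact (Int.even_iff.2 (TA_even i)).mul_right _) (univ : Finset (Fin 23))
  exact this

lemma zb_pos (x : Fin 23 → ℤ) (hx : x ≠ 0) : 0 < zb x x := by
  have h1 := bf_TA_pos (fun i => (x i : ℝ)) (by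
    intro h
    apply hx
    ext i
    have := congrFun h i
    simpa using this)
  have h2 : bf TA (fun i => (x i : ℝ)) (fun i => (x i : ℝ)) = (zb x x : ℝ) := by
    unfold bf zb
    push_cast
    rfl
  rw [h2] at h1
  exact_mod_cast h1

set_option maxRecDepth 100000 in
lemma chain_norm : ∀ i : Fin 23, i.val < 22 → TA i i = 2 := by
  decide

set_option maxRecDepth 100000 in
lemma chain_adj : ∀ i : Fin 22, i.val < 21 → TA i.castSucc (Fin.succ i) = -1 := by
  decide

set_option maxRecDepth 100000 in
lemma last_row : ∀ i : Fin 23, i.val < 22 → TA i 22 = if i.val = 4 then -1 else 0 := by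
  decide

lemma irred_aux (M₁ M₂ : AddSubgroup (Fin 23 → ℤ))
    (horth : ∀ x ∈ M₁, ∀ y ∈ M₂, zb x y = 0) (hsup : M₁ ⊔ M₂ = ⊤)
    (h0 : Pi.single 0 1 ∈ M₁) : M₂ = ⊥ := by
  have hdec : ∀ v : Fin 23 → ℤ, ∃ x ∈ M₁, ∃ y ∈ M₂, x + y = v := by
    intro v
    have : v ∈ M₁ ⊔ M₂ := by
      rw [hsup]
      exact AddSubgroup.mem_top v
    exact AddSubgroup.mem_sup.1 this
  have hadd : ∀ x ∈ M₁, ∀ y ∈ M₂, zb (x + y) (x + y) = zb x x + zb y y := by
    intro x hx y hy
    rw [zb_add_left, zb_symm x, zb_symm y, zb_add_left, zb_add_left, zb_symm y x, horth x hx y hy]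
    ring
  -- roots
  have hroot : ∀ v : Fin 23 → ℤ, zb v v = 2 → v ∈ M₁ ∨ v ∈ M₂ := by
    intro v hv
    obtain ⟨x, hx, y, hy, rfl⟩ := hdec v
    rw [hadd x hx y hy] at hv
    obtain ⟨a, ha⟩ := zb_even x
    obtain ⟨c, hc⟩ := zb_even y
    by_cases hx0 : x = 0
    · right
      rw [hx0, zero_add]
      exact hy
    · left
      have h1 := zb_pos x hx0
      have hy0 : y = 0 := by
        by_contra hy0
        have h2 := zb_pos y hy0
        omega
      rw [hy0, add_zero]
      exact hx
  -- the chain
  have hchain : ∀ i : ℕ, ∀ hi : i < 22, (Pi.single (⟨i, by omega⟩ : Fin 23) 1 : Fin 23 → ℤ) ∈ M₁ := by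
    intro i
    induction i with
    | zero => intro _; exact h0
    | succ i ih =>
      intro hi
      have h1 := ih (by omega)
      rcases hroot (Pi.single (⟨i + 1, by omega⟩ : Fin 23) 1) (by
        rw [zb_single, Al_single]
        exact chain_norm _ (by simpa using hi)) with h2 | h2
      · exact h2
      · exfalso
        have h3 := horth _ h1 _ h2
        rw [zb_single, Al_single] at h3
        have h4 := chain_adj ⟨i, by omega⟩ (by simpa using (by omega : i < 21))
        have e1 : (⟨i, by omega⟩ : Fin 22).castSucc = (⟨i, by omega⟩ : Fin 23) := rfl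
        have e2 : (⟨i, by omega⟩ : Fin 22).succ = (⟨i + 1, by omega⟩ : Fin 23) := rfl
        rw [e1, e2, h3] at h4
        norm_num at h4
  -- the last basis vector
  obtain ⟨x, hx, y, hy, hxy⟩ := hdec (Pi.single 22 1)
  have hyAl : ∀ i : Fin 23, i.val < 22 → Al TA y i = 0 := by
    intro i hi
    rw [← zb_single]
    exact horth _ (hchain i.val hi) y hy
  have h1 : zb x y = x 22 * Al TA y 22 := by
    rw [zb_eq, Finset.sum_eq_single (22 : Fin 23)]
    · intro i _ hi
      rw [hyAl i (by
        have h2 := i.2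
        have h3 : i.val ≠ 22 := fun h => hi (Fin.ext h)
        omega), mul_zero]
    · intro h
      exact absurd (Finset.mem_univ _) h
  rw [horth x hx y hy] at h1
  have h2 : Al TA y 22 = zb y y := by
    have h3 : zb (Pi.single 22 1) y = Al TA y 22 := zb_single 22 y
    rw [← h3, ← hxy, zb_add_left, horth x hx y hy, zero_add]
  have hy0 : y = 0 := by
    by_contra hne
    have h3 := zb_pos y hne
    rw [h2] at h1
    have hx22 : x 22 = 0 := by
      rcases mul_eq_zero.1 h1.symm with h4 | h4
      · exact h4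
      · omega
    -- the functional
    have h4 : ∑ i, uu i * Al TA x i = 23 * x 21 := by
      unfold Al
      calc ∑ i, uu i * ∑ j, TA i j * x j = ∑ j, (∑ i, uu i * TA i j) * x j := by
            simp only [Finset.mul_sum, Finset.sum_mul]
            rw [Finset.sum_comm]
            refine Finset.sum_congr rfl fun j _ => Finset.sum_congr rfl fun i _ => ?_
            ring
        _ = ∑ j : Fin 23, (if j.val = 21 then 23 else if j.val = 22 then -5 else 0) * x j := by
            refine Finset.sum_congr rfl fun j _ => ?_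
            rw [uA]
        _ = 23 * x 21 := by
            rw [Finset.sum_eq_single (21 : Fin 23)]
            · simp
            · intro j _ hj
              have h5 : j.val ≠ 21 := fun h => hj (Fin.ext h)
              rw [if_neg h5]
              split_ifs with h6
              · have : j = 22 := Fin.ext h6
                rw [this, hx22, mul_zero]
              · rw [zero_mul]
            · intro h
              exact absurd (Finset.mem_univ _) h
    have h5 : ∀ i : Fin 23, i.val < 22 → Al TA x i = if i.val = 4 then -1 else 0 := by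
      intro i hi
      have h6 : Al TA (x + y) i = Al TA x i + Al TA y i := by
        unfold Al
        rw [← Finset.sum_add_distrib]
        refine Finset.sum_congr rfl fun j _ => ?_
        simp only [Pi.add_apply]
        ring
      rw [hxy, Al_single, hyAl i hi, add_zero] at h6
      rw [← h6]
      exact last_row i hi
    have h6 : ∑ i, uu i * Al TA x i = -5 := by
      rw [Finset.sum_eq_single (4 : Fin 23)]
      · rw [h5 4 (by decide)]
        decide
      · intro i _ hi
        have h7 : i.val ≠ 4 := fun h => hi (Fin.ext h)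
        by_cases h8 : i.val = 22
        · unfold uu
          rw [if_pos h8, zero_mul]
        · rw [h5 i (by have := i.2; omega), if_neg h7, mul_zero]
      · intro h
        exact absurd (Finset.mem_univ _) h
    rw [h4] at h6
    omega
  have hx' : (Pi.single 22 1 : Fin 23 → ℤ) ∈ M₁ := by
    rw [← hxy, hy0, add_zero]
    exact hx
  -- everything is in `M₁`
  rw [AddSubgroup.eq_bot_iff_forall]
  intro w hw
  by_contra hne
  have h3 := zb_pos w hne
  have h4 : ∀ i : Fin 23, Al TA w i = 0 := by
    intro i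
    rw [← zb_single]
    by_cases hi : i.val < 22
    · exact horth _ (hchain i.val hi) w hw
    · have : i = 22 := Fin.ext (by have := i.2; omega)
      rw [this]
      exact horth _ hx' w hw
  rw [zb_eq] at h3
  simp only [h4, mul_zero, Finset.sum_const_zero] at h3
  exact lt_irrefl _ h3

lemma irred_TA : Irred TA := by
  intro M₁ M₂ horth hsup
  have hdec : (Pi.single 0 1 : Fin 23 → ℤ) ∈ M₁ ⊔ M₂ := by
    rw [hsup]
    exact AddSubgroup.mem_top _
  obtain ⟨x, hx, y, hy, hxy⟩ := AddSubgroup.mem_sup.1 hdec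
  have horth' : ∀ x ∈ M₂, ∀ y ∈ M₁, zb x y = 0 := by
    intro x hx y hy
    rw [zb_symm]
    exact horth y hy x hx
  have h2 : zb (Pi.single 0 1) (Pi.single 0 1) = 2 := by
    rw [zb_single, Al_single]
    exact chain_norm _ (by decide)
  have h3 : zb (x + y) (x + y) = zb x x + zb y y := by
    have h4 : zb x y = 0 := horth x hx y hy
    rw [zb_add_left, zb_symm x, zb_symm y, zb_add_left, zb_add_left, zb_symm y x, h4]
    ring
  rw [hxy, h2] at h3
  obtain ⟨a, ha⟩ := zb_even x
  obtain ⟨c, hc⟩ := zb_even y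
  by_cases hx0 : x = 0
  · left
    rw [hx0, zero_add] at hxy
    subst hxy
    exact irred_aux M₂ M₁ horth' (by rw [sup_comm]; exact hsup) hy
  · right
    have h1 := zb_pos x hx0
    have hy0 : y = 0 := by
      by_contra hy0
      have h2 := zb_pos y hy0
      omega
    rw [hy0, add_zero] at hxy
    subst hxy
    exact irred_aux M₁ M₂ horth hsup hx

end Pool.Agent.Q263.WJ
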